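import Pool.Agent.Work.MP_6237c7_co.FB.Fin3

set_option autoImplicit false
set_option linter.unusedSectionVars false

/-! MP_6237c7_co, FB: bundles. -/

namespace H79F

open Finsupp MeasureTheory H79KMW
open scoped Pointwise

/-- Fibres: polygons, or bounded minors. -/
def FibOK {m n : ℕ} (Δ : ℕ) (V0 : Finset (Fin (m + n) → ℝ)) : Prop :=
  n = 2 ∨ ∃ (r : ℕ) (A : Matrix (Fin r) (Fin (m + n)) ℤ) (b : Fin r → ℤ),
    convexHull ℝ (V0 : Set (Fin (m + n) → ℝ)) = {x | ∀ j, ∑ i, (A j i : ℝ) * x i ≤ (b j : ℝ)} ∧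
    ∀ f : Fin n → Fin r, |(A.submatrix f (Fin.natAdd m)).det| ≤ (Δ : ℤ)

theorem fib_main (m n : ℕ) : ∃ C : ℕ, ∀ v Δ : ℕ, 0 < v → 0 < Δ → ∃ k : ℕ, 0 < k ∧
    k ≤ C * (v * Δ) ^ C ∧
    ∀ X : Geometry.SimplicialComplex ℝ (Fin m → ℝ), X.faces.Finite →
      (∀ s ∈ X.faces, ∀ x ∈ s, ∀ i, ∃ z : ℤ, x i = (z : ℝ)) →
      (∀ s ∈ X.faces, s.card = m + 1 →
        volume (convexHull ℝ (s : Set (Fin m → ℝ))) ≤ (v : ENNReal) / (m.factorial : ENNReal)) →
      ∀ V0 : Finset (Fin (m + n) → ℝ), (∀ x ∈ V0, ∀ i, ∃ z : ℤ, x i = (z : ℝ)) → V0.Nonempty →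
        (∀ p ∈ convexHull ℝ (V0 : Set (Fin (m + n) → ℝ)), pr p ∈ X.space) → Cay X V0 →
        FibOK Δ V0 → UTk k (convexHull ℝ (V0 : Set (Fin (m + n) → ℝ))) := by
  by_cases hn : n = 2
  · subst hn
    obtain ⟨C, hC⟩ := poly_main m
    refine ⟨C, fun v Δ hv hΔ => ?_⟩
    obtain ⟨k, hk, hkC, h⟩ := hC v hv
    refine ⟨k, hk, hkC.trans (Nat.mul_le_mul_left _ (Nat.pow_le_pow_left
      (Nat.le_mul_of_pos_right v hΔ) _)), ?_⟩
    intro X hfin hX hvol V hint _ hcov hcay _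
    exact h X hfin hX hvol V hint hcov hcay
  · obtain ⟨C, hC⟩ := mod_main m n
    refine ⟨C, fun v Δ hv hΔ => ?_⟩
    obtain ⟨k, hk, hkC, h⟩ := hC v Δ hv hΔ
    refine ⟨k, hk, hkC, ?_⟩
    intro X hfin hX hvol V hint hne hcov hcay hdis
    rcases hdis with h2 | ⟨r, A, b, hAb, hmin⟩
    · exact absurd h2 hn
    · exact h X hfin hX hvol V hint hne hcov hcay r A b hAb hmin

/-- The bundle over `Q` with the given sections. -/
def Bun {m n N : ℕ} (Q : Set (Fin m → ℝ)) (L : Fin N → Matrix (Fin n) (Fin m) ℤ)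
    (t : Fin N → Fin n → ℤ) : Set (Fin (m + n) → ℝ) :=
  {p | pr p ∈ Q ∧ (fun l => p (Fin.natAdd m l)) ∈ convexHull ℝ
    (Set.range fun i : Fin N => fun l => ∑ j, (L i l j : ℝ) * pr p j + (t i l : ℝ))}

/-- Points of a hull of a finite family. -/
lemma hull_range {ι E : Type*} [Fintype ι] [AddCommGroup E] [Module ℝ E] {f : ι → E} {x : E}
    (hx : x ∈ convexHull ℝ (Set.range f)) :
    ∃ μ : ι → ℝ, (∀ i, 0 ≤ μ i) ∧ ∑ i, μ i = 1 ∧ ∑ i, μ i • f i = x := by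
  classical
  rw [convexHull_range_eq_exists_affineCombination] at hx
  obtain ⟨s, w, hw0, hw1, rfl⟩ := hx
  refine ⟨fun i => if i ∈ s then w i else 0, fun i => ?_, ?_, ?_⟩
  · show 0 ≤ if i ∈ s then w i else 0
    split_ifs with h
    · exact hw0 i h
    · exact le_rfl
  · rw [Finset.sum_ite_mem, Finset.univ_inter]; exact hw1
  · rw [Finset.affineCombination_eq_linear_combination _ _ _ hw1]
    have h1 : ∀ i, (if i ∈ s then w i else 0) • f i = if i ∈ s then w i • f i else 0 := by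
      intro i
      split_ifs
      · rfl
      · rw [zero_smul]
    simp only [h1]
    rw [Finset.sum_ite_mem, Finset.univ_inter]

/-- A point of the bundle over a simplex is a mean of section values over its vertices. -/
lemma bun_mem {m n N : ℕ} {Q : Set (Fin m → ℝ)} {L : Fin N → Matrix (Fin n) (Fin m) ℤ}
    {t : Fin N → Fin n → ℤ} {s : Finset (Fin m → ℝ)} (hs : ∀ x ∈ s, x ∈ Q)
    {p : Fin (m + n) → ℝ} (hp : p ∈ Bun Q L t) (hps : pr p ∈ convexHull ℝ (s : Set (Fin m → ℝ))) :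
    p ∈ convexHull ℝ {q | q ∈ Bun Q L t ∧ pr q ∈ s ∧ ∃ x ∈ s, ∃ i : Fin N,
      q = Fin.append x (fun l => ∑ j, (L i l j : ℝ) * x j + (t i l : ℝ))} := by
  classical
  obtain ⟨μ, hμ0, hμ1, hμ⟩ := hull_range hp.2
  have hps' : pr p ∈ convexHull ℝ (Set.range (fun x : s => (x : Fin m → ℝ))) := by
    have h1 : Set.range (fun x : s => (x : Fin m → ℝ)) = (s : Set (Fin m → ℝ)) := by
      ext y; simp
    rw [h1]; exact hps
  obtain ⟨lam, hl0, hl1, hl⟩ := hull_range hps'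
  let q : s × Fin N → (Fin (m + n) → ℝ) := fun xi =>
    Fin.append (xi.1 : Fin m → ℝ) (fun l => ∑ j, (L xi.2 l j : ℝ) * (xi.1 : Fin m → ℝ) j +
      (t xi.2 l : ℝ))
  have hpr : ∀ xi, pr (q xi) = (xi.1 : Fin m → ℝ) := by
    intro xi
    funext k
    show Fin.append _ _ (Fin.castAdd n k) = _
    rw [Fin.append_left]
  have hfi : ∀ xi l, q xi (Fin.natAdd m l) = ∑ j, (L xi.2 l j : ℝ) * (xi.1 : Fin m → ℝ) j +
      (t xi.2 l : ℝ) := by
    intro xi l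
    show Fin.append _ _ (Fin.natAdd m l) = _
    rw [Fin.append_right]
  have hq : ∀ xi, q xi ∈ {q | q ∈ Bun Q L t ∧ pr q ∈ s ∧ ∃ x ∈ s, ∃ i : Fin N,
      q = Fin.append x (fun l => ∑ j, (L i l j : ℝ) * x j + (t i l : ℝ))} := by
    intro xi
    refine ⟨⟨?_, ?_⟩, ?_, xi.1, xi.1.2, xi.2, rfl⟩
    · rw [hpr]; exact hs _ xi.1.2
    · refine subset_convexHull ℝ _ ⟨xi.2, ?_⟩
      funext l
      show ∑ j, (L xi.2 l j : ℝ) * pr (q xi) j + (t xi.2 l : ℝ) = q xi (Fin.natAdd m l)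
      rw [hpr, hfi]
    · rw [hpr]; exact xi.1.2
  have hsum : p = ∑ xi : s × Fin N, (lam xi.1 * μ xi.2) • q xi := by
    have hcoord : ∀ k, pr p k = ∑ x : s, lam x * (x : Fin m → ℝ) k := by
      intro k
      rw [← hl, Finset.sum_apply]
      rfl
    funext i
    rw [Finset.sum_apply]
    refine Fin.addCases (fun k => ?_) (fun l => ?_) i
    · show pr p k = _
      rw [hcoord, Fintype.sum_prod_type]
      refine Finset.sum_congr rfl fun x _ => ?_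
      have h1 : ∀ i : Fin N, ((lam x * μ i) • q (x, i)) (Fin.castAdd n k) =
          μ i * (lam x * (x : Fin m → ℝ) k) := by
        intro i
        have h2 : q (x, i) (Fin.castAdd n k) = (x : Fin m → ℝ) k := congrFun (hpr (x, i)) k
        rw [Pi.smul_apply, smul_eq_mul, h2]; ring
      simp only [h1]
      rw [← Finset.sum_mul, hμ1, one_mul]
    · have h0 : p (Fin.natAdd m l) = ∑ i, μ i * (∑ j, (L i l j : ℝ) * pr p j + (t i l : ℝ)) := by
        have h1 := congrFun hμ l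
        rw [Finset.sum_apply] at h1
        exact h1.symm
      rw [h0, Fintype.sum_prod_type_right]
      refine Finset.sum_congr rfl fun i _ => ?_
      have h1 : ∀ x : s, ((lam x * μ i) • q (x, i)) (Fin.natAdd m l) =
          μ i * (∑ j, (L i l j : ℝ) * (lam x * (x : Fin m → ℝ) j) + lam x * (t i l : ℝ)) := by
        intro x
        rw [Pi.smul_apply, smul_eq_mul, hfi]
        have h2 : ∑ j, (L i l j : ℝ) * (lam x * (x : Fin m → ℝ) j) =
            lam x * ∑ j, (L i l j : ℝ) * (x : Fin m → ℝ) j := by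
          rw [Finset.mul_sum]
          exact Finset.sum_congr rfl fun j _ => by ring
        rw [h2]; ring
      simp only [h1]
      rw [← Finset.mul_sum, Finset.sum_add_distrib, ← Finset.sum_mul, hl1, one_mul,
        Finset.sum_comm]
      congr 2
      refine Finset.sum_congr rfl fun j _ => ?_
      rw [hcoord, Finset.mul_sum]
  rw [hsum]
  refine (convex_convexHull ℝ _).sum_mem (fun xi _ => mul_nonneg (hl0 _) (hμ0 _)) ?_
    (fun xi _ => subset_convexHull ℝ _ (hq xi))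
  rw [Fintype.sum_prod_type]
  simp only [← Finset.mul_sum, hμ1, mul_one, hl1]

/-- Dilation of bundles. -/
lemma bun_smul {m n N : ℕ} (Q : Set (Fin m → ℝ)) (L : Fin N → Matrix (Fin n) (Fin m) ℤ)
    (t : Fin N → Fin n → ℤ) {k : ℕ} (hk : 0 < k) :
    (k : ℝ) • Bun Q L t = Bun ((k : ℝ) • Q) L (fun i l => (k : ℤ) * t i l) := by
  have hkr : (0:ℝ) < (k : ℝ) := by exact_mod_cast hk
  ext p
  rw [Set.mem_smul_set_iff_inv_smul_mem₀ hkr.ne']
  have hpr : pr ((k : ℝ)⁻¹ • p) = (k : ℝ)⁻¹ • pr p := rfl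
  have h1 : (fun l => ((k : ℝ)⁻¹ • p) (Fin.natAdd m l)) =
      (k : ℝ)⁻¹ • (fun l => p (Fin.natAdd m l)) := rfl
  have h2 : (Set.range fun i : Fin N => fun l => ∑ j, (L i l j : ℝ) * ((k : ℝ)⁻¹ • pr p) j +
      (t i l : ℝ)) = (k : ℝ)⁻¹ • (Set.range fun i : Fin N => fun l =>
        ∑ j, (L i l j : ℝ) * pr p j + (((k : ℤ) * t i l : ℤ) : ℝ)) := by
    rw [Set.smul_set_range]
    congr 1
    funext i l
    show _ = (k : ℝ)⁻¹ * (∑ j, (L i l j : ℝ) * pr p j + (((k : ℤ) * t i l : ℤ) : ℝ))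
    push_cast
    rw [mul_add, inv_mul_cancel_left₀ hkr.ne', Finset.mul_sum]
    congr 1
    refine Finset.sum_congr rfl fun j _ => ?_
    show (L i l j : ℝ) * ((k : ℝ)⁻¹ * pr p j) = _
    ring
  show (pr ((k : ℝ)⁻¹ • p) ∈ Q ∧ (fun l => ((k : ℝ)⁻¹ • p) (Fin.natAdd m l)) ∈ convexHull ℝ
    (Set.range fun i : Fin N => fun l => ∑ j, (L i l j : ℝ) * pr ((k : ℝ)⁻¹ • p) j +
      (t i l : ℝ))) ↔ (pr p ∈ (k : ℝ) • Q ∧ (fun l => p (Fin.natAdd m l)) ∈ convexHull ℝ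
    (Set.range fun i : Fin N => fun l => ∑ j, (L i l j : ℝ) * pr p j +
      (((k : ℤ) * t i l : ℤ) : ℝ)))
  rw [hpr, h1, h2, convexHull_smul, Set.smul_mem_smul_set_iff₀ (inv_ne_zero hkr.ne'),
    Set.mem_smul_set_iff_inv_smul_mem₀ hkr.ne']

lemma FibOK_smul {m n : ℕ} {Δ : ℕ} {V0 : Finset (Fin (m + n) → ℝ)} (h : FibOK Δ V0) {k : ℕ}
    (hk : 0 < k) {V1 : Finset (Fin (m + n) → ℝ)}
    (hV : convexHull ℝ (V1 : Set (Fin (m + n) → ℝ)) =
      (k : ℝ) • convexHull ℝ (V0 : Set (Fin (m + n) → ℝ))) : FibOK Δ V1 := by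
  have hkr : (0:ℝ) < (k : ℝ) := by exact_mod_cast hk
  rcases h with h | ⟨r, A, b, hAb, hmin⟩
  · exact Or.inl h
  · refine Or.inr ⟨r, A, fun j => (k : ℤ) * b j, ?_, hmin⟩
    rw [hV, hAb]
    ext x
    rw [Set.mem_smul_set_iff_inv_smul_mem₀ hkr.ne']
    show (∀ j, ∑ i, (A j i : ℝ) * ((k : ℝ)⁻¹ • x) i ≤ (b j : ℝ)) ↔
      ∀ j, ∑ i, (A j i : ℝ) * x i ≤ (((k : ℤ) * b j : ℤ) : ℝ)
    refine forall_congr' fun j => ?_
    have h1 : ∑ i, (A j i : ℝ) * ((k : ℝ)⁻¹ • x) i = (k : ℝ)⁻¹ * ∑ i, (A j i : ℝ) * x i := by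
      rw [Finset.mul_sum]
      refine Finset.sum_congr rfl fun i _ => ?_
      show (A j i : ℝ) * ((k : ℝ)⁻¹ * x i) = _
      ring
    rw [h1]
    push_cast
    rw [inv_mul_le_iff₀ hkr]

/-- Bundles inherit unimodular triangulations. -/
theorem bundle_main (m n : ℕ) : ∃ C : ℕ, ∀ Δ : ℕ, 0 < Δ → ∃ k : ℕ, 0 < k ∧ k ≤ C * Δ ^ C ∧
    ∀ (k' : ℕ) (Q : Set (Fin m → ℝ)), 0 < k' → UTk k' Q →
      ∀ (N : ℕ) (L : Fin N → Matrix (Fin n) (Fin m) ℤ) (t : Fin N → Fin n → ℤ)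
        (V0 : Finset (Fin (m + n) → ℝ)), (∀ x ∈ V0, ∀ i, ∃ z : ℤ, x i = (z : ℝ)) →
        V0.Nonempty → convexHull ℝ (V0 : Set (Fin (m + n) → ℝ)) = Bun Q L t →
        FibOK Δ V0 → UTk (k * k') (convexHull ℝ (V0 : Set (Fin (m + n) → ℝ))) := by
  classical
  obtain ⟨C, hC⟩ := fib_main m n
  refine ⟨C, fun Δ hΔ => ?_⟩
  obtain ⟨k, hk, hkC, h⟩ := hC 1 Δ one_pos hΔ
  refine ⟨k, hk, by rwa [one_mul] at hkC, ?_⟩
  rintro k' Q hk' ⟨X, hX1, hX2, hX3, hX4⟩ N L t V0 hint hne hV hF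
  have hkr : (0:ℝ) < (k' : ℝ) := by exact_mod_cast hk'
  let V1 : Finset (Fin (m + n) → ℝ) := V0.image (fun x => (k' : ℝ) • x)
  have hV1c : ((V1 : Finset (Fin (m + n) → ℝ)) : Set (Fin (m + n) → ℝ)) =
      (k' : ℝ) • (V0 : Set (Fin (m + n) → ℝ)) := by
    rw [Finset.coe_image]; rfl
  have hV1 : convexHull ℝ (V1 : Set (Fin (m + n) → ℝ)) =
      (k' : ℝ) • convexHull ℝ (V0 : Set (Fin (m + n) → ℝ)) := by
    rw [hV1c, convexHull_smul]
  have hB : convexHull ℝ (V1 : Set (Fin (m + n) → ℝ)) =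
      Bun ((k' : ℝ) • Q) L (fun i l => (k' : ℤ) * t i l) := by
    rw [hV1, hV, bun_smul Q L t hk']
  have hint1 : ∀ x ∈ V1, ∀ i, ∃ z : ℤ, x i = (z : ℝ) := by
    intro x hx i
    obtain ⟨y, hy, rfl⟩ := Finset.mem_image.1 hx
    obtain ⟨z, hz⟩ := hint y hy i
    refine ⟨(k' : ℤ) * z, ?_⟩
    show (k' : ℝ) * y i = _
    rw [hz]; push_cast; ring
  have h1 := h X hX1 hX3 (fun s hs hcard => by
    rw [hX4 s hs hcard, Nat.cast_one, one_div]) V1 hint1 (hne.image _) (by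
      intro p hp
      rw [hB] at hp
      rw [hX2]; exact hp.1) (by
      intro s hs p hp hps
      rw [hB] at hp ⊢
      have hsQ : ∀ x ∈ s, x ∈ (k' : ℝ) • Q := by
        intro x hx
        rw [← hX2]
        exact Geometry.SimplicialComplex.mem_space_iff.2 ⟨s, hs, subset_convexHull ℝ _ hx⟩
      refine convexHull_mono ?_ (bun_mem hsQ hp hps)
      rintro q ⟨hq1, hq2, x, hx, i, hq3⟩
      refine ⟨hq1, ?_, hq2⟩
      rw [hq3]
      intro a
      have hxi := hX3 s hs x hx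
      refine Fin.addCases (fun k => ?_) (fun l => ?_) a
      · rw [Fin.append_left]; exact hxi k
      · rw [Fin.append_right]
        choose z hz using hxi
        refine ⟨∑ j, L i l j * z j + (k' : ℤ) * t i l, ?_⟩
        push_cast
        simp only [hz]) (FibOK_smul hF hk' hV1)
  obtain ⟨K, hK1, hK2, hK3, hK4⟩ := h1
  refine ⟨K, hK1, ?_, hK3, hK4⟩
  rw [hK2, hV1, smul_smul]
  push_cast
  rfl

end H79F
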