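import Pool.Agent.Work.MP_6237c7_co.FB.Mod3

set_option autoImplicit false
set_option linter.unusedSectionVars false

/-! MP_6237c7_co, FB: the theorems on fibrations. -/

namespace H79F

open Finsupp MeasureTheory H79KMW
open scoped Pointwise

/-- The Cayley property over a complex. -/
def Cay {m n : ℕ} (X : Geometry.SimplicialComplex ℝ (Fin m → ℝ)) (V0 : Finset (Fin (m + n) → ℝ)) :
    Prop :=
  ∀ s ∈ X.faces, ∀ p ∈ convexHull ℝ (V0 : Set (Fin (m + n) → ℝ)),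
    pr p ∈ convexHull ℝ (s : Set (Fin m → ℝ)) →
    p ∈ convexHull ℝ {q | q ∈ convexHull ℝ (V0 : Set (Fin (m + n) → ℝ)) ∧
      (∀ i, ∃ z : ℤ, q i = (z : ℝ)) ∧ pr q ∈ s}

/-- The conclusion. -/
def UTk {d : ℕ} (k : ℕ) (S : Set (Fin d → ℝ)) : Prop :=
  ∃ K : Geometry.SimplicialComplex ℝ (Fin d → ℝ), K.faces.Finite ∧ K.space = (k : ℝ) • S ∧
    (∀ s ∈ K.faces, ∀ x ∈ s, ∀ i, ∃ z : ℤ, x i = (z : ℝ)) ∧
    (∀ s ∈ K.faces, s.card = d + 1 →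
      volume (convexHull ℝ (s : Set (Fin d → ℝ))) = ((d.factorial : ENNReal))⁻¹)

lemma pow_bound2 (d J c e v : ℕ) (c1 : ℕ) (V : ℕ) (hV0 : 0 < V) (hv : 0 < v)
    (hV : V ≤ c * v ^ e) :
    J ^ (2 * (d + 1) * Nat.clog 2 V) * c1 ≤
      (c ^ (4 * (d + 1) * J) * c1 + e * (4 * (d + 1) * J)) *
        v ^ (c ^ (4 * (d + 1) * J) * c1 + e * (4 * (d + 1) * J)) := by
  set E' : ℕ := 4 * (d + 1) * J with hE'
  have h1 := pow_bound d J V hV0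
  have h2 : V ^ E' ≤ (c * v ^ e) ^ E' := Nat.pow_le_pow_left hV _
  have h3 : (c * v ^ e) ^ E' = c ^ E' * v ^ (e * E') := by
    rw [mul_pow, ← pow_mul]
  calc J ^ (2 * (d + 1) * Nat.clog 2 V) * c1 ≤ (c ^ E' * v ^ (e * E')) * c1 :=
        Nat.mul_le_mul_right _ (h1.trans (h2.trans h3.le))
    _ = (c ^ E' * c1) * v ^ (e * E') := by ring
    _ ≤ (c ^ E' * c1 + e * E') * v ^ (c ^ E' * c1 + e * E') := by
        refine Nat.mul_le_mul (Nat.le_add_right _ _) ?_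
        exact Nat.pow_le_pow_right hv (Nat.le_add_left _ _)

/-- Polygon fibrations. -/
theorem poly_main (m : ℕ) : ∃ C : ℕ, ∀ v : ℕ, 0 < v → ∃ k : ℕ, 0 < k ∧ k ≤ C * v ^ C ∧
    ∀ X : Geometry.SimplicialComplex ℝ (Fin m → ℝ), X.faces.Finite →
      (∀ s ∈ X.faces, ∀ x ∈ s, ∀ i, ∃ z : ℤ, x i = (z : ℝ)) →
      (∀ s ∈ X.faces, s.card = m + 1 →
        volume (convexHull ℝ (s : Set (Fin m → ℝ))) ≤ (v : ENNReal) / (m.factorial : ENNReal)) →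
      ∀ V0 : Finset (Fin (m + 2) → ℝ), (∀ x ∈ V0, ∀ i, ∃ z : ℤ, x i = (z : ℝ)) →
        (∀ p ∈ convexHull ℝ (V0 : Set (Fin (m + 2) → ℝ)), pr p ∈ X.space) → Cay X V0 →
        UTk k (convexHull ℝ (V0 : Set (Fin (m + 2) → ℝ))) := by
  classical
  obtain ⟨J, hJ⟩ := roundProp_all (m + 2)
  obtain ⟨J0, hJ0⟩ := roundProp_all 7
  obtain ⟨J1, T, hJ1, hT⟩ := base_step hJ0
  refine ⟨(2 ^ (m + 3)) ^ (4 * (m + 2 + 1) * J) * J1 + (m + 3) * (4 * (m + 2 + 1) * J),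
    fun v hv => ?_⟩
  have hVpos : 0 < (2 * v) ^ (m + 3) := pow_pos (by omega) _
  refine ⟨J ^ (2 * (m + 2 + 1) * Nat.clog 2 ((2 * v) ^ (m + 3))) * J1,
    Nat.mul_pos (pow_pos hJ.1 _) hJ1,
    pow_bound2 (m + 2) J (2 ^ (m + 3)) (m + 3) v J1 _ hVpos hv (by rw [mul_pow]), ?_⟩
  intro X hfin hX hvol V0 hint hcov hcay
  obtain ⟨K', hK', hs', hht', hMB'⟩ := poly_fan X hfin hX hvol V0 hint hcov hcay
  obtain ⟨K, hK1, hK2, hK3, hK4⟩ := fan_end hJ hJ1 hT hK' hht' ((2 * v) ^ (m + 3)) hMB'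
  refine ⟨K, hK1, ?_, hK3, hK4⟩
  have hsec : sec K' = convexHull ℝ (V0 : Set (Fin (m + 2) → ℝ)) := by
    ext x
    show (Fin.cons 1 x : Fin (m + 2 + 1) → ℝ) ∈ supp id K' ↔ _
    rw [hs', cone_iff hint]
  rw [hK2, hsec]

/-- Modular fibrations. -/
theorem mod_main (m n : ℕ) : ∃ C : ℕ, ∀ v Δ : ℕ, 0 < v → 0 < Δ → ∃ k : ℕ, 0 < k ∧
    k ≤ C * (v * Δ) ^ C ∧
    ∀ X : Geometry.SimplicialComplex ℝ (Fin m → ℝ), X.faces.Finite →
      (∀ s ∈ X.faces, ∀ x ∈ s, ∀ i, ∃ z : ℤ, x i = (z : ℝ)) →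
      (∀ s ∈ X.faces, s.card = m + 1 →
        volume (convexHull ℝ (s : Set (Fin m → ℝ))) ≤ (v : ENNReal) / (m.factorial : ENNReal)) →
      ∀ V0 : Finset (Fin (m + n) → ℝ), (∀ x ∈ V0, ∀ i, ∃ z : ℤ, x i = (z : ℝ)) → V0.Nonempty →
        (∀ p ∈ convexHull ℝ (V0 : Set (Fin (m + n) → ℝ)), pr p ∈ X.space) → Cay X V0 →
        ∀ (r : ℕ) (A : Matrix (Fin r) (Fin (m + n)) ℤ) (b : Fin r → ℤ),
          convexHull ℝ (V0 : Set (Fin (m + n) → ℝ)) = pol A b →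
          (∀ f : Fin n → Fin r, |(A.submatrix f (Fin.natAdd m)).det| ≤ (Δ : ℤ)) →
        UTk k (convexHull ℝ (V0 : Set (Fin (m + n) → ℝ))) := by
  classical
  obtain ⟨J, hJ⟩ := roundProp_all (m + n)
  let c : ℕ := (m + n + 1).factorial * (1 + 2 * n * n) ^ (m + n + 1)
  refine ⟨c ^ (4 * (m + n + 1) * J) * 1 + (m + n + 1) * (4 * (m + n + 1) * J),
    fun v Δ hv hΔ => ?_⟩
  let Vv : ℕ := v * ((m + n + 1).factorial * (1 + 2 * n * (n * Δ)) ^ (m + n + 1))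
  have hVpos : 0 < Vv :=
    Nat.mul_pos hv (Nat.mul_pos (Nat.factorial_pos _) (pow_pos (by omega) _))
  have hvΔ : 0 < v * Δ := Nat.mul_pos hv hΔ
  have hVle : Vv ≤ c * (v * Δ) ^ (m + n + 1) := by
    have h1 : 1 + 2 * n * (n * Δ) ≤ (1 + 2 * n * n) * Δ := by
      have h2 : (1 + 2 * n * n) * Δ = Δ + 2 * n * (n * Δ) := by ring
      omega
    have h2 : (1 + 2 * n * (n * Δ)) ^ (m + n + 1) ≤ (1 + 2 * n * n) ^ (m + n + 1) *
        Δ ^ (m + n + 1) := by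
      rw [← mul_pow]; exact Nat.pow_le_pow_left h1 _
    have h3 : v ≤ v ^ (m + n + 1) := Nat.le_self_pow (by omega) v
    calc Vv ≤ v ^ (m + n + 1) * ((m + n + 1).factorial * ((1 + 2 * n * n) ^ (m + n + 1) *
        Δ ^ (m + n + 1))) := Nat.mul_le_mul h3 (Nat.mul_le_mul_left _ h2)
      _ = c * (v * Δ) ^ (m + n + 1) := by
        rw [mul_pow]
        show _ = (m + n + 1).factorial * (1 + 2 * n * n) ^ (m + n + 1) * _
        ring
  refine ⟨J ^ (2 * (m + n + 1) * Nat.clog 2 Vv) * 1,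
    Nat.mul_pos (pow_pos hJ.1 _) one_pos,
    pow_bound2 (m + n) J c (m + n + 1) (v * Δ) 1 Vv hVpos hvΔ hVle, ?_⟩
  intro X hfin hX hvol V0 hint hne hcov hcay r A b hAb hmin
  have hΔ' := fanOf_isCx hfin hX
  have hfinV : Finite (Vt (fanOf X) (V0.image lft) (n := n)) := Vt_finite fanOf_lv lft_lv
  have : Fintype (Vt (fanOf X) (V0.image lft) (n := n)) := Fintype.ofFinite _
  obtain ⟨f0, hf0⟩ := exists_rows (Matrix.of (A2 A)) (fun x hx => fib_inj hAb hne x hx)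
  have hLM : LM (fanOf X) (V0.image lft) (fun k => A2 A (f0 k)) (n * Δ) :=
    mod_LM X hX hint hcay hAb hne hmin f0
  have hCx : IsCx (vr (Δ := fanOf X) (V := V0.image lft) (n := n))
    (KB (fun k => A2 A (f0 k))) := KB_isCx hΔ'
  have hMBX := fanOf_MB hX hvol
  have hv' : ∀ s ∈ fanOf X, ∀ f : Fin (m + 1) → Fin (m + 1) → ℤ, (∀ i, f i ∈ s) →
      |dt f| ≤ (v : ℤ) := by
    intro s hs f hf
    have h1 := hMBX s hs f hf
    have h2 : ((|dt f| : ℤ) : ℝ) ≤ ((v : ℤ) : ℝ) := by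
      push_cast; exact h1
    exact_mod_cast h2
  obtain ⟨K, hK1, hK2, hK3, hK4⟩ := main_fan hJ Vv (push_isCx hCx) (by
    rintro s ⟨c, _, hs⟩ x hx
    have h1 : x ∈ (s : Set (Fin (m + n + 1) → ℤ)) := hx
    rw [hs] at h1
    obtain ⟨z, _, rfl⟩ := h1
    exact fanOf_lv _ z.2.2 _ (Finset.mem_singleton_self _)) (by
    rintro s ⟨c, hc, hs⟩ f hf
    have hf' : ∀ k, ∃ z ∈ c, f k = vr z := by
      intro k
      have h1 : f k ∈ (s : Set (Fin (m + n + 1) → ℤ)) := hf k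
      rw [hs] at h1
      obtain ⟨z, hz, hzf⟩ := h1
      exact ⟨z, hz, hzf.symm⟩
    choose p hpc hpf using hf'
    have h1 : f = fun i => vr (p i) := funext hpf
    rw [h1]
    exact KB_dt hΔ' hv' hf0 hLM hc p hpc)
  refine ⟨K, hK1, ?_, hK3, hK4⟩
  have hsec : sec (push (vr (Δ := fanOf X) (V := V0.image lft) (n := n))
      (KB (fun k => A2 A (f0 k)))) = convexHull ℝ (V0 : Set (Fin (m + n) → ℝ)) := by
    ext x
    show (Fin.cons 1 x : Fin (m + n + 1) → ℝ) ∈ supp id (push vr (KB _)) ↔ _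
    rw [supp_push hCx, KB_supp hΔ' (split_of X V0 hint hcov hcay), cone_iff hint]
  rw [hK2, hsec, mul_one]

end H79F
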