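import Pool.Agent.Work.MP_6237c7_co.BW.Defs

/-!
MP_6237c7_co, FB: the initial fan over a base fan, from the splitting property only.
-/

set_option autoImplicit false

namespace H6BW

open Finsupp H79KMW

section initm
variable {m n : ℕ} (A : Matrix (Fin m) (Fin n) ℤ)

private lemma init_rv_mulVec (x : Fin n → ℤ) :
    rv (A.mulVec x) = (A.map (Int.cast : ℤ → ℝ)).mulVec (rv x) := by
  funext i
  simp [rv, Matrix.mulVec, dotProduct]

/-- Push forward of weights along `A`. -/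
private noncomputable def initPf (w : (Fin n → ℤ) →₀ ℝ) : (Fin m → ℤ) →₀ ℝ :=
  w.mapDomain (fun x => A.mulVec x)

private lemma init_lc_pf (w : (Fin n → ℤ) →₀ ℝ) :
    lc id (initPf A w) = (A.map (Int.cast : ℤ → ℝ)).mulVec (lc id w) := by
  have h1 : lc id (initPf A w) = lc (fun x => A.mulVec x) w := by
    unfold initPf lc
    rw [Finsupp.linearCombination_mapDomain]
    rfl
  rw [h1]
  have h2 : (A.map (Int.cast : ℤ → ℝ)).mulVec (lc id w) =
      (Matrix.mulVecLin (A.map (Int.cast : ℤ → ℝ))) (lc id w) := rfl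
  rw [h2]
  unfold lc
  rw [Finsupp.linearCombination_apply, Finsupp.linearCombination_apply, Finsupp.sum,
    Finsupp.sum, map_sum]
  refine Finset.sum_congr rfl fun x _ => ?_
  rw [map_smul, init_rv_mulVec]
  rfl

private lemma init_pf_apply (w : (Fin n → ℤ) →₀ ℝ) (y : Fin m → ℤ) :
    initPf A w y = ∑ x ∈ w.support, if A.mulVec x = y then w x else 0 := by
  classical
  unfold initPf
  rw [Finsupp.mapDomain, Finsupp.sum, Finsupp.finsetSum_apply]
  refine Finset.sum_congr rfl fun x _ => ?_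
  rw [Finsupp.single_apply]

private lemma init_pf_nonneg {w : (Fin n → ℤ) →₀ ℝ} (hw : ∀ x, 0 ≤ w x) (y : Fin m → ℤ) :
    0 ≤ initPf A w y := by
  classical
  rw [init_pf_apply]
  refine Finset.sum_nonneg fun x _ => ?_
  split_ifs
  · exact hw x
  · exact le_rfl

private lemma init_pf_support {w : (Fin n → ℤ) →₀ ℝ} (hw : ∀ x, 0 ≤ w x) (y : Fin m → ℤ) :
    y ∈ (initPf A w).support ↔ ∃ x ∈ w.support, A.mulVec x = y := by
  classical
  rw [Finsupp.mem_support_iff, init_pf_apply]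
  constructor
  · intro h
    by_contra hno
    push Not at hno
    apply h
    refine Finset.sum_eq_zero fun x hx => ?_
    rw [if_neg (hno x hx)]
  · rintro ⟨x, hx, rfl⟩
    have hpos : 0 < w x := lt_of_le_of_ne (hw x) (Ne.symm (Finsupp.mem_support_iff.1 hx))
    have : 0 < ∑ z ∈ w.support, if A.mulVec z = A.mulVec x then w z else 0 := by
      refine Finset.sum_pos' (fun z _ => ?_) ⟨x, hx, ?_⟩
      · split_ifs
        · exact hw z
        · exact le_rfl
      · rw [if_pos rfl]; exact hpos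
    exact this.ne'

end initm

/-- A functional vanishing on a face of a simplicial cone and equal to one on the other rays. -/
private lemma init_functional {m : ℕ} {Δ : Set (Finset (Fin m → ℤ))} (hΔ : IsCx id Δ)
    {c d : Finset (Fin m → ℤ)} (hc : c ∈ Δ) :
    ∃ ψ : (Fin m → ℝ) →ₗ[ℝ] ℝ, ∀ x ∈ c, (x ∈ d → ψ (rv x) = 0) ∧ (x ∉ d → ψ (rv x) = 1) := by
  classical
  have hli := hΔ.linInd hc
  let f : c → ℝ := fun x => if (x : Fin m → ℤ) ∈ d then 0 else 1
  obtain ⟨ψ, hψ⟩ : ∃ ψ : (Fin m → ℝ) →ₗ[ℝ] ℝ, ∀ x : c, ψ (rv (x : Fin m → ℤ)) = f x := by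
    obtain ⟨g, hg⟩ := LinearMap.exists_extend
      ((Finsupp.linearCombination ℝ f).comp hli.repr)
    refine ⟨g, fun x => ?_⟩
    have hx : rv (id (x : Fin m → ℤ)) ∈
        Submodule.span ℝ (Set.range (fun x : c => rv (id (x : Fin m → ℤ)))) :=
      Submodule.subset_span ⟨x, rfl⟩
    have h1 := LinearMap.congr_fun hg ⟨_, hx⟩
    rw [LinearMap.comp_apply, LinearMap.comp_apply,
      hli.repr_eq_single x ⟨_, hx⟩ rfl, Finsupp.linearCombination_single, one_smul] at h1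
    exact h1
  refine ⟨ψ, fun x hx => ⟨fun h => ?_, fun h => ?_⟩⟩
  · have := hψ ⟨x, hx⟩
    rw [this]; simp [f, h]
  · have := hψ ⟨x, hx⟩
    rw [this]; simp [f, h]

private lemma init_coneOf_mono {n : ℕ} {P Q : Finset (Fin n → ℤ)} (h : P ⊆ Q) :
    coneOf P ⊆ coneOf Q := by
  rintro y ⟨a, ha, hs, rfl⟩
  exact ⟨a, ha, hs.trans h, rfl⟩

/-- A cone over vectors of a cone is in the cone. -/
private lemma init_coneOf_sub {n : ℕ} {P V : Finset (Fin n → ℤ)}
    (h : ∀ x ∈ P, rv x ∈ coneOf V) : coneOf P ⊆ coneOf V := by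
  classical
  rintro y ⟨a, ha, hs, rfl⟩
  have h1 : lc id a = ∑ x ∈ a.support, a x • rv x := by
    unfold lc
    rw [Finsupp.linearCombination_apply, Finsupp.sum]
    rfl
  rw [h1]
  have hz : (0 : Fin n → ℝ) ∈ coneOf V := ⟨0, fun _ => le_rfl, by simp, by simp⟩
  have key : ∀ t : Finset (Fin n → ℤ), t ⊆ a.support → ∑ x ∈ t, a x • rv x ∈ coneOf V := by
    intro t
    induction t using Finset.induction_on with
    | empty => intro _; simpa using hz
    | insert x t hxt ih =>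
      intro hsub
      rw [Finset.sum_insert hxt]
      exact coneOf_add V (coneOf_smul V (h x (hs (hsub (Finset.mem_insert_self x t)))) (ha x))
        (ih ((Finset.subset_insert x t).trans hsub))
  exact key _ (Finset.Subset.refl _)

/-- INIT from the splitting property. -/
theorem init2 (hP : S_PLACEL) (hF : S_FINLP) {m n : ℕ} {Δ : Set (Finset (Fin (m + 1) → ℤ))}
    (hΔ : IsCx id Δ) {A : Matrix (Fin (m + 1)) (Fin (n + 1)) ℤ} {V : Finset (Fin (n + 1) → ℤ)}
    (hA : ∀ x, (A.mulVec x) 0 = x 0) (hV1 : ∀ v ∈ V, v 0 = 1)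
    (hS : ∀ y ∈ coneOf V, ∃ a ∈ body Δ, ∃ P : Finset (Fin (n + 1) → ℤ),
      (∀ x ∈ P, rv x ∈ coneOf V ∧ A.mulVec x ∈ a.support) ∧ y ∈ coneOf P) :
    ∃ K : Set (Finset (Fin (n + 1) → ℤ)), IsCx id K ∧ supp id K = coneOf V ∧ Over A Δ K := by
  classical
  obtain ⟨Pl, hcx, hsub, hsupp, hres⟩ := hP (n + 1)
  -- a bound for the heights of the base fan
  obtain ⟨h, hh⟩ : ∃ h : ℤ, ∀ s ∈ Δ, ∀ x ∈ s, x 0 ≤ h := by
    have hfin : (⋃ s ∈ Δ, ((s : Finset (Fin (m + 1) → ℤ)) : Set (Fin (m + 1) → ℤ))).Finite :=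
      hΔ.fin.biUnion fun s _ => s.finite_toSet
    have himg := hfin.image (fun x : Fin (m + 1) → ℤ => x 0)
    obtain ⟨h, hh⟩ := himg.bddAbove
    refine ⟨h, fun s hs x hx => hh ⟨x, ?_, rfl⟩⟩
    exact Set.mem_biUnion hs (Finset.mem_coe.2 hx)
  have hXfin : {x : Fin (n + 1) → ℤ | rv x ∈ coneOf V ∧
      ({A.mulVec x} : Finset (Fin (m + 1) → ℤ)) ∈ Δ}.Finite := by
    refine (hF n V h hV1).subset ?_
    rintro x ⟨hx1, hx2⟩
    refine ⟨hx1, ?_⟩
    rw [← hA x]
    exact hh _ hx2 _ (Finset.mem_singleton_self _)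
  let L : List (Fin (n + 1) → ℤ) := hXfin.toFinset.toList
  have hL : ∀ x, x ∈ L ↔ rv x ∈ coneOf V ∧ ({A.mulVec x} : Finset (Fin (m + 1) → ℤ)) ∈ Δ := by
    intro x
    simp [L]
  let F : Finset (Fin (m + 1) → ℤ) → List (Fin (n + 1) → ℤ) := fun c =>
    L.filter (fun x => decide (A.mulVec x ∈ c))
  have hFmem : ∀ c x, x ∈ F c ↔ x ∈ L ∧ A.mulVec x ∈ c := by
    intro c x
    simp [F]
  -- the restriction property
  have hrestr : ∀ c ∈ Δ, ∀ d : Finset (Fin (m + 1) → ℤ), d ⊆ c →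
      ∀ s, s ∈ Pl (F d) ↔ s ∈ Pl (F c) ∧ ∀ x ∈ s, A.mulVec x ∈ d := by
    intro c hc d hdc s
    obtain ⟨ψ, hψ⟩ := init_functional hΔ (d := d) hc
    have h1 : F d = (F c).filter (fun x => decide (A.mulVec x ∈ d)) := by
      show L.filter _ = (L.filter _).filter _
      rw [List.filter_filter]
      refine List.filter_congr fun x _ => ?_
      by_cases hx : A.mulVec x ∈ d
      · simp [hx, hdc hx]
      · simp [hx]
    have h2 := hres (F c) (ψ.comp (Matrix.mulVecLin (A.map (Int.cast : ℤ → ℝ))))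
      (fun x => decide (A.mulVec x ∈ d)) (by
        intro x hx
        rw [LinearMap.comp_apply, Matrix.mulVecLin_apply, ← init_rv_mulVec]
        have hx' := ((hFmem c x).1 hx).2
        by_cases hxd : A.mulVec x ∈ d
        · rw [(hψ _ hx').1 hxd]
        · rw [(hψ _ hx').2 hxd]; exact zero_le_one) (by
        intro x hx
        rw [LinearMap.comp_apply, Matrix.mulVecLin_apply, ← init_rv_mulVec]
        have hx' := ((hFmem c x).1 hx).2
        by_cases hxd : A.mulVec x ∈ d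
        · simp [hxd, (hψ _ hx').1 hxd]
        · simp [hxd, (hψ _ hx').2 hxd])
    rw [h1, h2]
    simp
  let K : Set (Finset (Fin (n + 1) → ℤ)) := {s | ∃ c ∈ Δ, s ∈ Pl (F c)}
  -- faces lie over cells
  have hover : ∀ c s, s ∈ Pl (F c) → ∀ x ∈ s, A.mulVec x ∈ c := by
    intro c s hs x hx
    have := hsub _ _ hs hx
    rw [List.mem_toFinset, hFmem] at this
    exact this.2
  -- push forward of a weight
  have hpush : ∀ c ∈ Δ, ∀ w : (Fin (n + 1) → ℤ) →₀ ℝ, (∀ x, 0 ≤ w x) → w.support ∈ Pl (F c) →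
      (initPf A w).support ⊆ c ∧ initPf A w ∈ body Δ := by
    intro c hc w hw hs
    have h1 : (initPf A w).support ⊆ c := by
      intro y hy
      obtain ⟨x, hx, rfl⟩ := (init_pf_support A hw y).1 hy
      exact hover c _ hs x hx
    exact ⟨h1, fun y => init_pf_nonneg A hw y, hΔ.down c hc _ h1⟩
  refine ⟨K, ⟨?_, ?_, ?_⟩, ?_, ?_⟩
  · -- finiteness
    have : K = ⋃ c ∈ Δ, Pl (F c) := by
      ext s; simp [K]
    rw [this]
    exact hΔ.fin.biUnion fun c _ => (hcx (F c)).fin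
  · rintro s ⟨c, hc, hs⟩ t hts
    exact ⟨c, hc, (hcx (F c)).down s hs t hts⟩
  · -- injectivity
    rintro w ⟨hw, c, hc, hs⟩ w' ⟨hw', c', hc', hs'⟩ heq
    obtain ⟨h1, h2⟩ := hpush c hc w hw hs
    obtain ⟨h1', h2'⟩ := hpush c' hc' w' hw' hs'
    have h3 : initPf A w = initPf A w' := by
      refine hΔ.inj h2 h2' ?_
      rw [init_lc_pf, init_lc_pf, heq]
    have h4 : w.support ∈ Pl (F (initPf A w).support) := by
      rw [hrestr c hc _ h1]
      exact ⟨hs, fun x hx => (init_pf_support A hw _).2 ⟨x, hx, rfl⟩⟩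
    have h4' : w'.support ∈ Pl (F (initPf A w).support) := by
      rw [h3, hrestr c' hc' _ h1']
      exact ⟨hs', fun x hx => (init_pf_support A hw' _).2 ⟨x, hx, rfl⟩⟩
    exact (hcx _).inj ⟨hw, h4⟩ ⟨hw', h4'⟩ heq
  · -- support
    apply Set.Subset.antisymm
    · rintro y ⟨w, ⟨hw, c, hc, hs⟩, rfl⟩
      have h1 : lc id w ∈ supp id (Pl (F c)) := ⟨w, ⟨hw, hs⟩, rfl⟩
      rw [hsupp] at h1
      refine init_coneOf_sub ?_ h1
      intro x hx
      rw [List.mem_toFinset, hFmem, hL] at hx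
      exact hx.1.1
    · intro y hy
      obtain ⟨a, ha, P, hP1, hP2⟩ := hS y hy
      have h1 : y ∈ supp id (Pl (F a.support)) := by
        rw [hsupp]
        refine init_coneOf_mono ?_ hP2
        intro x hx
        obtain ⟨h5, h6⟩ := hP1 x hx
        rw [List.mem_toFinset, hFmem, hL]
        refine ⟨⟨h5, hΔ.down _ ha.2 _ ?_⟩, h6⟩
        simpa using h6
      obtain ⟨w, hw, rfl⟩ := h1
      exact ⟨w, ⟨hw.1, a.support, ha.2, hw.2⟩, rfl⟩
  · rintro s ⟨c, hc, hs⟩
    refine hΔ.down c hc _ ?_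
    intro y hy
    obtain ⟨x, hx, rfl⟩ := Finset.mem_image.1 hy
    exact hover c s hs x hx

end H6BW
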