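import Pool.Agent.Work.MP_6237c7_co.FB.Poly
import Pool.Agent.Work.MP_6237c7_co.LV.Tower

set_option autoImplicit false
set_option linter.unusedSectionVars false

/-! MP_6237c7_co, FB: fibrations with modular fibres, the complex. -/

namespace H79F

open Finsupp MeasureTheory H79KMW
open scoped Pointwise

/-- Fibre part of a vector. -/
def fx {m n : ℕ} (x : Fin (m + n + 1) → ℤ) : Fin n → ℤ := fun k => x (ge m n (Sum.inr k))

/-- Real fibre part. -/
def fr {m n : ℕ} (y : Fin (m + n + 1) → ℝ) : Fin n → ℝ := fun k => y (ge m n (Sum.inr k))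

/-- Real base part. -/
def br {m n : ℕ} (y : Fin (m + n + 1) → ℝ) : Fin (m + 1) → ℝ := fun k => y (ge m n (Sum.inl k))

lemma ext_bf {m n : ℕ} {y y' : Fin (m + n + 1) → ℝ} (h1 : br y = br y') (h2 : fr y = fr y') :
    y = y' := by
  funext i
  obtain ⟨j, rfl⟩ := (ge_bij m n).2 i
  rcases j with j | j
  · exact congrFun h1 j
  · exact congrFun h2 j

section modc
variable {m n : ℕ} (Δ : Set (Finset (Fin (m + 1) → ℤ))) (V : Finset (Fin (m + n + 1) → ℤ))

/-- The vertices. -/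
def Vt : Type := {x : Fin (m + n + 1) → ℤ // rv x ∈ coneOf V ∧
  ({bs x} : Finset (Fin (m + 1) → ℤ)) ∈ Δ}

variable {Δ V}

/-- Base part of a vertex. -/
def vb (p : Vt Δ V) : Fin (m + 1) → ℤ := bs p.1

/-- Fibre part of a vertex. -/
def vf (p : Vt Δ V) : Fin n → ℤ := fx p.1

lemma Vt_finite (hlv : Lv Δ) (hV1 : ∀ v ∈ V, v 0 = 1) : Finite (Vt Δ V) := by
  have h := H6BW.finlp (m + n) V 1 hV1
  refine (h.subset ?_).to_subtype
  rintro x ⟨h1, h2⟩
  exact ⟨h1, (hlv _ h2 _ (Finset.mem_singleton_self _)).le⟩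

/-- Functionals. -/
noncomputable def lq : ((Fin (m + 1) → ℤ) ⊕ Fin n) → ((Vt Δ V →₀ ℝ) →ₗ[ℝ] ℝ)
  | Sum.inl u => (Finsupp.lapply u).comp (Finsupp.lmapDomain ℝ ℝ (fun p => vb p))
  | Sum.inr k => Finsupp.linearCombination ℝ (fun p => ((vf p k : ℤ) : ℝ))

/-- Quadratic cost. -/
noncomputable def cq (B : Fin n → Fin n → ℤ) : (Vt Δ V →₀ ℝ) →ₗ[ℝ] ℝ :=
  Finsupp.linearCombination ℝ (fun p => ∑ k, (ap (B k) (fun j => (vf p j : ℝ))) ^ 2)

lemma lq_inl (u : Fin (m + 1) → ℤ) (w : Vt Δ V →₀ ℝ) :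
    lq (Sum.inl u) w = (w.mapDomain (fun p => vb p)) u := rfl

lemma lq_inr (k : Fin n) (w : Vt Δ V →₀ ℝ) :
    lq (Sum.inr k) w = Finsupp.linearCombination ℝ (fun p => ((vf p k : ℤ) : ℝ)) w := rfl

/-- Labels. -/
def vr (p : Vt Δ V) : Fin (m + n + 1) → ℤ := p.1

lemma br_lc (w : Vt Δ V →₀ ℝ) :
    br (lc vr w) = lc id (w.mapDomain (fun p => vb p)) := by
  rw [lc, lc, Finsupp.linearCombination_mapDomain]
  funext i
  have h1 : br ((Finsupp.linearCombination ℝ fun x : Vt Δ V => rv (vr x)) w) i =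
      lc vr w (ge m n (Sum.inl i)) := rfl
  have h2 : (Finsupp.linearCombination ℝ ((fun x => rv (id x)) ∘ fun p : Vt Δ V => vb p)) w i =
      lc vb w i := rfl
  rw [h1, h2, lc_apply_of_subset w w.support (Finset.Subset.refl _),
    lc_apply_of_subset w w.support (Finset.Subset.refl _)]
  rfl

lemma fr_lc (w : Vt Δ V →₀ ℝ) (k : Fin n) : fr (lc vr w) k = lq (Sum.inr k) w := by
  show lc vr w (ge m n (Sum.inr k)) = _
  rw [lc_apply_of_subset w w.support (Finset.Subset.refl _), lq_inr,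
    Finsupp.linearCombination_apply, Finsupp.sum]
  rfl

/-- The complex. -/
def KB (B : Fin n → Fin n → ℤ) [Fintype (Vt Δ V)] : Set (Finset (Vt Δ V)) :=
  {c | c ∈ LPK lq (cq B :: (Finset.univ : Finset (Vt Δ V)).toList.map
      (fun p => Finsupp.lapply p)) ∧ ∃ c' ∈ Δ, ∀ p ∈ c, vb p ∈ c'}

lemma lq_total [Fintype (Vt Δ V)] (w w' : Vt Δ V →₀ ℝ)
    (h : ∀ i, lq i w = lq i w') : ∑ x, w x = ∑ x, w' x := by
  have h1 : w.mapDomain (fun p => vb p) = w'.mapDomain (fun p => vb p) := by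
    ext s
    exact h (Sum.inl s)
  have h2 : ∀ u : Vt Δ V →₀ ℝ, ∑ x, u x =
      Finsupp.linearCombination ℝ (fun _ : Fin (m + 1) → ℤ => (1:ℝ))
        (u.mapDomain (fun p => vb p)) := by
    intro u
    rw [Finsupp.linearCombination_mapDomain, Finsupp.linearCombination_apply,
      Finsupp.sum_fintype _ _ (by simp)]
    simp
  rw [h2, h2, h1]

lemma map_nonneg' {β γ : Type*} (f : β → γ) {w : β →₀ ℝ} (hw : ∀ x, 0 ≤ w x) (s : γ) :
    0 ≤ w.mapDomain f s := by
  classical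
  rw [Finsupp.mapDomain, Finsupp.sum, Finsupp.finsetSum_apply]
  refine Finset.sum_nonneg fun x _ => ?_
  rw [Finsupp.single_apply]
  split_ifs
  · exact hw _
  · exact le_rfl

lemma marg_KB [Fintype (Vt Δ V)] (hΔ : IsCx id Δ) {B : Fin n → Fin n → ℤ} {w : Vt Δ V →₀ ℝ}
    (hw : w ∈ body (KB B)) : w.mapDomain (fun p => vb p) ∈ body Δ := by
  classical
  obtain ⟨hw0, hwl, c', hc', hcs⟩ := hw
  refine ⟨map_nonneg' _ hw0, hΔ.down c' hc' _ ?_⟩
  refine Finsupp.mapDomain_support.trans ?_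
  intro s hs
  obtain ⟨p, hp, rfl⟩ := Finset.mem_image.1 hs
  exact hcs p hp

lemma KB_isCx [Fintype (Vt Δ V)] (hΔ : IsCx id Δ) {B : Fin n → Fin n → ℤ} :
    IsCx (vr (Δ := Δ) (V := V)) (KB B) := by
  classical
  refine ⟨Set.toFinite _, ?_, ?_⟩
  · rintro s ⟨h1, c', hc', h2⟩ t ht
    exact ⟨LPK_down h1 ht, c', hc', fun p hp => h2 p (ht hp)⟩
  · intro w hw w' hw' heq
    have heq' : lc vr w = lc vr w' := heq
    have hm : w.mapDomain (fun p => vb p) = w'.mapDomain (fun p => vb p) :=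
      hΔ.inj (marg_KB hΔ hw) (marg_KB hΔ hw') (by
        show lc id _ = lc id _
        rw [← br_lc, ← br_lc, heq'])
    refine LPK_inj ?_ ⟨hw.1, hw.2.1⟩ ⟨hw'.1, hw'.2.1⟩ ?_
    · intro x
      refine List.mem_cons_of_mem _ (List.mem_map.2 ⟨x, ?_, rfl⟩)
      rw [Finset.mem_toList]; exact Finset.mem_univ _
    · rintro (s | k)
      · rw [lq_inl, lq_inl, hm]
      · rw [← fr_lc, ← fr_lc, heq']

/-- A cone over vectors of a cone is in the cone. -/
lemma cone_sum {N : ℕ} {β : Type*} (V : Finset (Fin N → ℤ)) (t : Finset β) (a : β → ℝ)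
    (ha : ∀ x, 0 ≤ a x) (r : β → Fin N → ℤ) (h : ∀ x ∈ t, rv (r x) ∈ coneOf V) :
    ∑ x ∈ t, a x • rv (r x) ∈ coneOf V := by
  classical
  have hz : (0 : Fin N → ℝ) ∈ coneOf V := ⟨0, fun _ => le_rfl, by simp, by simp⟩
  induction t using Finset.induction_on with
  | empty => simpa using hz
  | insert x t hxt ih =>
    rw [Finset.sum_insert hxt]
    exact coneOf_add V (coneOf_smul V (h x (Finset.mem_insert_self x t)) (ha x))
      (ih fun y hy => h y (Finset.mem_insert_of_mem hy))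

lemma lc_sum {N : ℕ} {β : Type*} (r : β → Fin N → ℤ) (w : β →₀ ℝ) :
    lc r w = ∑ x ∈ w.support, w x • rv (r x) := by
  rw [lc, Finsupp.linearCombination_apply, Finsupp.sum]

/-- The support of the complex. -/
lemma KB_supp [Fintype (Vt Δ V)] (hΔ : IsCx id Δ) {B : Fin n → Fin n → ℤ}
    (hS : ∀ y ∈ coneOf V, ∃ a ∈ body Δ, ∃ P : Finset (Fin (m + n + 1) → ℤ),
      (∀ x ∈ P, rv x ∈ coneOf V ∧ bs x ∈ a.support) ∧ y ∈ coneOf P) :
    supp (vr (Δ := Δ) (V := V)) (KB B) = coneOf V := by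
  classical
  apply Set.Subset.antisymm
  · rintro y ⟨w, hw, rfl⟩
    rw [lc_sum]
    exact cone_sum V _ _ hw.1 _ fun p _ => p.2.1
  · intro y hy
    obtain ⟨a, ha, P, hP, c, hc, hcP, rfl⟩ := hS y hy
    have hmem : ∀ x ∈ P, rv x ∈ coneOf V ∧ ({bs x} : Finset (Fin (m + 1) → ℤ)) ∈ Δ := by
      intro x hx
      refine ⟨(hP x hx).1, hΔ.down _ ha.2 _ ?_⟩
      simpa using (hP x hx).2
    let mk : {x // x ∈ c.support} → Vt Δ V := fun x => ⟨x.1, hmem x.1 (hcP x.2)⟩
    let w0 : Vt Δ V →₀ ℝ := ∑ x ∈ c.support.attach, single (mk x) (c x.1)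
    have hw0 : ∀ p, 0 ≤ w0 p := by
      intro p
      show 0 ≤ (∑ x ∈ c.support.attach, single (mk x) (c x.1)) p
      rw [Finsupp.finsetSum_apply]
      refine Finset.sum_nonneg fun x _ => ?_
      rw [Finsupp.single_apply]
      split_ifs
      · exact hc _
      · exact le_rfl
    have hlc : lc vr w0 = lc id c := by
      show lc vr (∑ x ∈ c.support.attach, single (mk x) (c x.1)) = _
      rw [map_sum, lc_sum id c, ← Finset.sum_attach c.support (fun x => c x • rv (id x))]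
      refine Finset.sum_congr rfl fun x _ => ?_
      rw [lc_single]
      rfl
    have hbase : ∀ p ∈ w0.support, vb p ∈ a.support := by
      intro p hp
      have h1 := (Finsupp.support_finsetSum (s := c.support.attach)
        (f := fun x => single (mk x) (c x.1))) hp
      rw [Finset.mem_biUnion] at h1
      obtain ⟨x, _, hx⟩ := h1
      have h2 := Finset.mem_singleton.1 (Finsupp.support_single_subset hx)
      rw [h2]
      exact (hP x.1 (hcP x.2)).2
    obtain ⟨u, hu, hul⟩ := LPK_exists (l := lq (Δ := Δ) (V := V)) (fs := cq B :: (Finset.univ :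
      Finset (Vt Δ V)).toList.map (fun p => Finsupp.lapply p)) lq_total w0 hw0
    have hum : u.mapDomain (fun p => vb p) = w0.mapDomain (fun p => vb p) := by
      ext s
      exact hul (Sum.inl s)
    have husub : ∀ q ∈ u.support, vb q ∈ a.support := by
      intro q hq
      have hpos : 0 < u q := lt_of_le_of_ne (hu.1 q) (Ne.symm (Finsupp.mem_support_iff.1 hq))
      have h1 : u q ≤ (u.mapDomain (fun p => vb p)) (vb q) := by
        rw [Finsupp.mapDomain, Finsupp.sum, Finsupp.finsetSum_apply]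
        have h2 : u q = (single (vb q) (u q) : (Fin (m + 1) → ℤ) →₀ ℝ) (vb q) := by
          rw [Finsupp.single_eq_same]
        conv_lhs => rw [h2]
        refine Finset.single_le_sum (f := fun q' => (single (vb q') (u q') :
          (Fin (m + 1) → ℤ) →₀ ℝ) (vb q)) (fun q' _ => ?_) hq
        rw [Finsupp.single_apply]
        split_ifs
        · exact hu.1 q'
        · exact le_rfl
      have h3 : (w0.mapDomain (fun p => vb p)) (vb q) ≠ 0 := by
        rw [← hum]; exact (lt_of_lt_of_le hpos h1).ne'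
      have h4 := Finsupp.mapDomain_support (Finsupp.mem_support_iff.2 h3)
      obtain ⟨p, hp, hpq⟩ := Finset.mem_image.1 h4
      rw [← hpq]
      exact hbase p hp
    refine ⟨u, ⟨hu.1, hu.2, a.support, ha.2, husub⟩, ?_⟩
    show lc vr u = lc id c
    rw [← hlc]
    refine ext_bf ?_ ?_
    · rw [br_lc, br_lc, hum]
    · funext k
      rw [fr_lc, fr_lc]
      exact hul (Sum.inr k)

end modc

end H79F
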