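import Pool.Agent.Work.MP_6237c7_co.FB.Mod

set_option autoImplicit false
set_option linter.unusedSectionVars false

/-! MP_6237c7_co, FB: fibrations with modular fibres, multiplicities. -/

namespace H79F

open Finsupp MeasureTheory H79KMW
open scoped Pointwise

section modc
variable {m n : ℕ} {Δ : Set (Finset (Fin (m + 1) → ℤ))} {V : Finset (Fin (m + n + 1) → ℤ)}

/-- Local measures on fibres. -/
def LM (Δ : Set (Finset (Fin (m + 1) → ℤ))) (V : Finset (Fin (m + n + 1) → ℤ))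
    (B : Fin n → Fin n → ℤ) (ρ : ℕ) : Prop :=
  ∀ y ∈ coneOf V, ∀ u : Fin (m + 1) → ℤ, ({u} : Finset (Fin (m + 1) → ℤ)) ∈ Δ → br y = rv u →
    ∃ ν : Vt Δ V →₀ ℝ, (∀ p, 0 ≤ ν p) ∧ (∑ p ∈ ν.support, ν p = 1) ∧
      (∀ p ∈ ν.support, vb p = u) ∧
      (∀ k, ∑ p ∈ ν.support, ν p * (vf p k : ℝ) = fr y k) ∧
      ∀ p ∈ ν.support, ∀ k, |ap (B k) (fun j => (vf p j : ℝ)) - ap (B k) (fr y)| ≤ (ρ : ℝ)

lemma cost_le {B : Fin n → Fin n → ℤ} {ρ : ℕ} {ν : Vt Δ V →₀ ℝ} (hν0 : ∀ p, 0 ≤ ν p)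
    (hν1 : ∑ p ∈ ν.support, ν p = 1) {c : Fin n → ℝ}
    (hν2 : ∀ k, ∑ p ∈ ν.support, ν p * (vf p k : ℝ) = c k)
    (hν3 : ∀ p ∈ ν.support, ∀ k, |ap (B k) (fun j => (vf p j : ℝ)) - ap (B k) c| ≤ (ρ : ℝ)) :
    cq B ν ≤ (∑ k, (ap (B k) c) ^ 2) + n * (ρ : ℝ) ^ 2 := by
  classical
  rw [cq, Finsupp.linearCombination_apply, Finsupp.sum]
  simp only [smul_eq_mul, Finset.mul_sum]
  rw [Finset.sum_comm]
  have h2 : ∀ k ∈ (Finset.univ : Finset (Fin n)),
      ∑ y ∈ ν.support, ν y * (ap (B k) (fun j => (vf y j : ℝ))) ^ 2 ≤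
        (ap (B k) c) ^ 2 + (ρ : ℝ) ^ 2 := by
    intro k _
    set e : ℝ := ap (B k) c with he
    have hmean : ∑ y ∈ ν.support, ν y * ap (B k) (fun j => (vf y j : ℝ)) = e := by
      simp only [ap, Finset.mul_sum]
      rw [Finset.sum_comm]
      rw [he, ap]
      refine Finset.sum_congr rfl fun j _ => ?_
      have h3 := hν2 j
      calc ∑ y ∈ ν.support, ν y * ((B k j : ℝ) * (vf y j : ℝ)) =
            (B k j : ℝ) * ∑ y ∈ ν.support, ν y * (vf y j : ℝ) := by
              rw [Finset.mul_sum]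
              exact Finset.sum_congr rfl fun y _ => by ring
        _ = _ := by rw [h3]
    have hexp : ∑ y ∈ ν.support, ν y * (ap (B k) (fun j => (vf y j : ℝ))) ^ 2 =
        ∑ y ∈ ν.support, ν y * (ap (B k) (fun j => (vf y j : ℝ)) - e) ^ 2 +
          2 * e * ∑ y ∈ ν.support, ν y * ap (B k) (fun j => (vf y j : ℝ)) -
          e ^ 2 * ∑ y ∈ ν.support, ν y := by
      rw [Finset.mul_sum, Finset.mul_sum, ← Finset.sum_add_distrib, ← Finset.sum_sub_distrib]
      exact Finset.sum_congr rfl fun y _ => by ring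
    have hvar : ∑ y ∈ ν.support, ν y * (ap (B k) (fun j => (vf y j : ℝ)) - e) ^ 2 ≤
        (ρ : ℝ) ^ 2 := by
      have h3 : ∑ y ∈ ν.support, ν y * (ap (B k) (fun j => (vf y j : ℝ)) - e) ^ 2 ≤
          ∑ y ∈ ν.support, ν y * (ρ : ℝ) ^ 2 := by
        refine Finset.sum_le_sum fun y hy => ?_
        refine mul_le_mul_of_nonneg_left ?_ (hν0 y)
        have h4 := hν3 y hy k
        rw [← sq_abs]
        exact pow_le_pow_left₀ (abs_nonneg _) h4 2
      rw [← Finset.sum_mul, hν1, one_mul] at h3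
      exact h3
    rw [hexp, hmean, hν1]
    nlinarith
  refine (Finset.sum_le_sum h2).trans ?_
  rw [Finset.sum_add_distrib, Finset.sum_const, Finset.card_univ, Fintype.card_fin,
    nsmul_eq_mul]

lemma map_const {β γ : Type*} (f : β → γ) {w : β →₀ ℝ} {u : γ} (h : ∀ x ∈ w.support, f x = u)
    (h1 : ∑ x ∈ w.support, w x = 1) : w.mapDomain f = single u 1 := by
  classical
  rw [Finsupp.mapDomain, Finsupp.sum, ← h1]
  rw [Finset.sum_congr rfl (fun x hx => by rw [h x hx])]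
  exact (map_sum (Finsupp.singleAddHom u) _ _).symm

/-- Two vertices of a face over the same base point are close. -/
lemma fib_diff' [Fintype (Vt Δ V)] {B : Fin n → Fin n → ℤ} {ρ : ℕ} (h : LM Δ V B ρ)
    {c : Finset (Vt Δ V)} (hc : c ∈ KB B) {p q : Vt Δ V} (hp : p ∈ c) (hq : q ∈ c)
    (hpq : vb p = vb q) (k : Fin n) :
    |ap (B k) (fun j => (vf p j : ℝ)) - ap (B k) (fun j => (vf q j : ℝ))| ≤
      2 * (n : ℝ) * ρ := by
  classical
  let y : Fin (m + n + 1) → ℝ := (1 / 2 : ℝ) • rv (vr p) + (1 / 2 : ℝ) • rv (vr q)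
  have hy : y ∈ coneOf V :=
    coneOf_add V (coneOf_smul V p.2.1 (by norm_num)) (coneOf_smul V q.2.1 (by norm_num))
  have hyb : br y = rv (vb p) := by
    funext i
    show (1 / 2 : ℝ) * ((vb p i : ℤ) : ℝ) + (1 / 2) * ((vb q i : ℤ) : ℝ) = ((vb p i : ℤ) : ℝ)
    rw [← hpq]; ring
  have hyf : ∀ k, fr y k = (1 / 2 : ℝ) * (vf p k : ℝ) + (1 / 2) * (vf q k : ℝ) := fun k => rfl
  obtain ⟨ν, hν0, hν1, hνb, hνy, hν3⟩ := h y hy (vb p) p.2.2 hyb
  have hcost1 := cost_le (B := B) hν0 hν1 hνy hν3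
  let w' : Vt Δ V →₀ ℝ := single p (1 / 2) + single q (1 / 2)
  have hw'0 : ∀ x, 0 ≤ w' x := by
    intro x
    show 0 ≤ (single p (1 / 2 : ℝ) + single q (1 / 2 : ℝ) : Vt Δ V →₀ ℝ) x
    rw [Finsupp.add_apply, Finsupp.single_apply, Finsupp.single_apply]
    split_ifs <;> norm_num
  have hw's : w'.support ⊆ c := by
    refine supp_add_subset _ _ _ ?_ ?_
    · refine Finsupp.support_single_subset.trans ?_
      intro z hz
      rw [Finset.mem_singleton.1 hz]; exact hp
    · refine Finsupp.support_single_subset.trans ?_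
      intro z hz
      rw [Finset.mem_singleton.1 hz]; exact hq
  have hcost := LPK_cost hc.1 hw'0 hw's hν0 (by
    rintro (s | k)
    · have e1 : (w'.mapDomain (fun p => vb p)) = single (vb p) 1 := by
        show (single p (1 / 2 : ℝ) + single q (1 / 2)).mapDomain (fun p => vb p) = _
        rw [Finsupp.mapDomain_add, Finsupp.mapDomain_single, Finsupp.mapDomain_single, ← hpq,
          ← Finsupp.single_add]
        norm_num
      rw [lq_inl, lq_inl, map_const _ hνb hν1, e1]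
    · have e2 : lq (Sum.inr k) w' = (1 / 2) * (vf p k : ℝ) + (1 / 2) * (vf q k : ℝ) := by
        show lq (Sum.inr k) (single p (1 / 2 : ℝ) + single q (1 / 2)) = _
        rw [map_add, lq_inr, lq_inr, Finsupp.linearCombination_single,
          Finsupp.linearCombination_single, smul_eq_mul, smul_eq_mul]
      rw [e2, ← hyf, ← hνy, lq_inr, Finsupp.linearCombination_apply, Finsupp.sum]
      rfl)
  have hcw' : cq B w' = (1 / 2) * (∑ k, (ap (B k) (fun j => (vf p j : ℝ))) ^ 2) +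
      (1 / 2) * (∑ k, (ap (B k) (fun j => (vf q j : ℝ))) ^ 2) := by
    show cq B (single p (1 / 2 : ℝ) + single q (1 / 2)) = _
    rw [map_add, cq, Finsupp.linearCombination_single, Finsupp.linearCombination_single,
      smul_eq_mul, smul_eq_mul]
  have hmid : ∀ k, ap (B k) (fr y) = (ap (B k) (fun j => (vf p j : ℝ)) +
      ap (B k) (fun j => (vf q j : ℝ))) / 2 := by
    intro k
    rw [ap, ap, ap, ← Finset.sum_add_distrib, Finset.sum_div]
    refine Finset.sum_congr rfl fun j _ => ?_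
    rw [hyf]
    ring
  rw [hcw'] at hcost
  have htot := hcost.trans hcost1
  have hsum : ∑ k, (ap (B k) (fun j => (vf p j : ℝ)) -
      ap (B k) (fun j => (vf q j : ℝ))) ^ 2 ≤ 4 * (n * (ρ : ℝ) ^ 2) := by
    have e1 : ∑ k, (ap (B k) (fun j => (vf p j : ℝ)) -
        ap (B k) (fun j => (vf q j : ℝ))) ^ 2 =
        2 * (∑ k, (ap (B k) (fun j => (vf p j : ℝ))) ^ 2) +
        2 * (∑ k, (ap (B k) (fun j => (vf q j : ℝ))) ^ 2) -
        4 * ∑ k, (ap (B k) (fr y)) ^ 2 := by
      rw [Finset.mul_sum, Finset.mul_sum, Finset.mul_sum, ← Finset.sum_add_distrib,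
        ← Finset.sum_sub_distrib]
      refine Finset.sum_congr rfl fun k _ => ?_
      rw [hmid k]
      ring
    rw [e1]
    linarith
  have hk : (ap (B k) (fun j => (vf p j : ℝ)) - ap (B k) (fun j => (vf q j : ℝ))) ^ 2 ≤
      4 * (n * (ρ : ℝ) ^ 2) := by
    refine le_trans ?_ hsum
    exact Finset.single_le_sum (f := fun k => (ap (B k) (fun j => (vf p j : ℝ)) -
      ap (B k) (fun j => (vf q j : ℝ))) ^ 2) (fun k _ => sq_nonneg _) (Finset.mem_univ k)
  have hn : (1:ℝ) ≤ n := by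
    have : 0 < n := lt_of_le_of_lt (Nat.zero_le _) k.2
    exact_mod_cast this
  refine abs_le_of_sq_le_sq ?_ (by positivity)
  have hρ : (0:ℝ) ≤ (ρ : ℝ) ^ 2 := by positivity
  nlinarith

/-- The determinant bound. -/
lemma KB_dt [Fintype (Vt Δ V)] (hΔ : IsCx id Δ) {v : ℕ}
    (hv : ∀ s ∈ Δ, ∀ f : Fin (m + 1) → Fin (m + 1) → ℤ, (∀ i, f i ∈ s) → |dt f| ≤ (v : ℤ))
    {B : Fin n → Fin n → ℤ} (hB : (Matrix.of B).det ≠ 0) {ρ : ℕ} (h : LM Δ V B ρ)
    {c : Finset (Vt Δ V)} (hc : c ∈ KB B) (p : Fin (m + n + 1) → Vt Δ V) (hp : ∀ i, p i ∈ c) :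
    |((dt (fun i => vr (p i)) : ℤ) : ℝ)| ≤
      ((v * ((m + n + 1).factorial * (1 + 2 * n * ρ) ^ (m + n + 1)) : ℕ) : ℝ) := by
  classical
  by_cases hdt0 : dt (fun i => vr (p i)) = 0
  · rw [hdt0]; simp only [Int.cast_zero, abs_zero]; positivity
  obtain ⟨c', hc', hcs⟩ := hc.2
  let e : Fin (m + 1) ⊕ Fin n ≃ Fin (m + n + 1) := Equiv.ofBijective (ge m n) (ge_bij m n)
  let MR : Matrix (Fin (m + n + 1)) (Fin (m + n + 1)) ℝ := Matrix.of fun i j => (vr (p i) j : ℝ)
  have hMR : ((dt (fun i => vr (p i)) : ℤ) : ℝ) = MR.det := by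
    rw [dt]
    have h1 := RingHom.map_det (Int.castRingHom ℝ) (Matrix.of (fun i => vr (p i)))
    rw [RingHom.mapMatrix_apply] at h1
    exact h1
  have hMR0 : MR.det ≠ 0 := by
    rw [← hMR]; exact_mod_cast hdt0
  let M' : Matrix (Fin (m + 1) ⊕ Fin n) (Fin (m + 1) ⊕ Fin n) ℝ := MR.submatrix e e
  have hM' : M'.det = MR.det := Matrix.det_submatrix_equiv_self e MR
  have e1 : ∀ i (j : Fin (m + 1)), M' i (Sum.inl j) = rv (vb (p (e i))) j := fun i j => rfl
  have e2 : ∀ i (k : Fin n), M' i (Sum.inr k) = (vf (p (e i)) k : ℝ) := fun i k => rfl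
  -- the base face is full
  have hcard : c'.card = m + 1 := by
    refine le_antisymm (hΔ.card_le hc') ?_
    by_contra hlt
    push Not at hlt
    let U : Submodule ℝ (Fin (m + 1) → ℝ) :=
      Submodule.span ℝ (((c'.image rv : Finset (Fin (m + 1) → ℝ))) : Set (Fin (m + 1) → ℝ))
    have hU : U < ⊤ := by
      rw [lt_top_iff_ne_top]
      intro htop
      have h1 := finrank_span_finset_le_card (R := ℝ)
        (c'.image (rv : (Fin (m + 1) → ℤ) → (Fin (m + 1) → ℝ)))
      unfold Set.finrank at h1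
      have h2 : Module.finrank ℝ U = m + 1 := by
        rw [htop, finrank_top, Module.finrank_fin_fun]
      have h3 : (c'.image (rv : (Fin (m + 1) → ℤ) → (Fin (m + 1) → ℝ))).card ≤ c'.card :=
        Finset.card_image_le
      have h4 : Module.finrank ℝ U ≤ c'.card := h1.trans h3
      omega
    obtain ⟨φ, hφ0, hφ⟩ := Submodule.exists_le_ker_of_lt_top U hU
    apply hMR0
    rw [← hM', ← Matrix.exists_mulVec_eq_zero_iff]
    have hφexp : ∀ y : Fin (m + 1) → ℝ, φ y = ∑ j, y j * φ (Pi.single j 1) := by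
      intro y
      conv_lhs => rw [pi_eq_sum_univ' y]
      rw [map_sum]
      refine Finset.sum_congr rfl fun j _ => ?_
      rw [map_smul]; rfl
    refine ⟨(Sum.elim (fun j : Fin (m + 1) => φ (Pi.single j 1)) (fun _ : Fin n => (0:ℝ)) :
      Fin (m + 1) ⊕ Fin n → ℝ), ?_, ?_⟩
    · intro h0
      apply hφ0
      ext j
      have h1 := congrFun h0 (Sum.inl j)
      show φ (Pi.single j 1) = 0
      exact h1
    · funext i
      rw [Matrix.mulVec, dotProduct, Fintype.sum_sum_type]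
      have h1 : ∑ k : Fin n, M' i (Sum.inr k) * ((Sum.elim (fun j : Fin (m + 1) =>
          φ (Pi.single j 1)) (fun _ : Fin n => (0:ℝ)) : Fin (m + 1) ⊕ Fin n → ℝ)
          (Sum.inr k)) = 0 := by
        refine Finset.sum_eq_zero fun k _ => ?_
        show _ * (0:ℝ) = 0
        rw [mul_zero]
      rw [h1, add_zero]
      have h2 : ∑ j : Fin (m + 1), M' i (Sum.inl j) * ((Sum.elim (fun j : Fin (m + 1) =>
          φ (Pi.single j 1)) (fun _ : Fin n => (0:ℝ)) : Fin (m + 1) ⊕ Fin n → ℝ)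
          (Sum.inl j)) = φ (rv (vb (p (e i)))) := by
        rw [hφexp]
        rfl
      rw [h2]
      have h3 : rv (vb (p (e i))) ∈ U := Submodule.subset_span (by
        rw [Finset.coe_image]
        exact ⟨_, Finset.mem_coe.2 (hcs _ (hp _)), rfl⟩)
      exact LinearMap.mem_ker.1 (hφ h3)
  let e' : Fin (m + 1) ≃ c' := (Finset.equivFinOfCardEq hcard).symm
  let f' : Fin (m + 1) → Fin (m + 1) → ℤ := fun j => (e' j : Fin (m + 1) → ℤ)
  have hf' : ∀ j, f' j ∈ c' := fun j => (e' j).2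
  have hf'inj : Function.Injective f' := fun i j hij => e'.injective (Subtype.ext hij)
  have hT1 := hv c' hc' f' hf'
  let TR : Matrix (Fin (m + 1)) (Fin (m + 1)) ℝ := Matrix.of fun i j => (f' i j : ℝ)
  have hTR : ((dt f' : ℤ) : ℝ) = TR.det := by
    rw [dt]
    have h1 := RingHom.map_det (Int.castRingHom ℝ) (Matrix.of f')
    rw [RingHom.mapMatrix_apply] at h1
    exact h1
  have hTR1 : |TR.det| ≤ (v : ℝ) := by
    rw [← hTR, ← Int.cast_abs]
    exact_mod_cast hT1
  -- representatives of the fibres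
  let y0 : (Fin (m + 1) → ℤ) → (Fin n → ℤ) := fun s =>
    if h : ∃ q ∈ c, vb q = s then vf (Classical.choose h) else 0
  have hy0 : ∀ q ∈ c, ∃ q' ∈ c, vb q' = vb q ∧ y0 (vb q) = vf q' := by
    intro q hq
    have hex : ∃ q' ∈ c, vb q' = vb q := ⟨q, hq, rfl⟩
    refine ⟨Classical.choose hex, (Classical.choose_spec hex).1, (Classical.choose_spec hex).2, ?_⟩
    exact dif_pos hex
  obtain ⟨g, hg⟩ := exists_map (hΔ.linInd hc')
    (fun s => (fun k => ap (B k) (fun j => (y0 s j : ℝ)) : Fin n → ℝ))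
  let G : Matrix (Fin (m + 1)) (Fin n) ℝ := Matrix.of fun j k => g (Pi.single j 1) k
  have hgexp : ∀ (y : Fin (m + 1) → ℝ) (k : Fin n), g y k = ∑ j, y j * g (Pi.single j 1) k := by
    intro y k
    conv_lhs => rw [pi_eq_sum_univ' y]
    rw [map_sum, Finset.sum_apply]
    refine Finset.sum_congr rfl fun j _ => ?_
    rw [map_smul]; rfl
  let BR : Matrix (Fin n) (Fin n) ℝ := (Matrix.of B).map (Int.castRingHom ℝ)
  let S : Matrix (Fin (m + 1) ⊕ Fin n) (Fin (m + 1) ⊕ Fin n) ℝ :=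
    Matrix.fromBlocks 1 (-G) 0 BR.transpose
  have hdetS : S.det = BR.det := by
    show (Matrix.fromBlocks 1 (-G) 0 BR.transpose).det = _
    rw [Matrix.det_fromBlocks_zero₂₁, Matrix.det_one, one_mul, Matrix.det_transpose]
  have hdetB : 1 ≤ |BR.det| := by
    have h1 := RingHom.map_det (Int.castRingHom ℝ) (Matrix.of B)
    rw [RingHom.mapMatrix_apply] at h1
    show 1 ≤ |((Matrix.of B).map (Int.castRingHom ℝ)).det|
    rw [← h1]
    show 1 ≤ |(((Matrix.of B).det : ℤ) : ℝ)|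
    rw [← Int.cast_abs]
    exact_mod_cast Int.one_le_abs hB
  have hrow : ∀ i (k : Fin n), ∑ j, M' i (Sum.inl j) * G j k =
      ap (B k) (fun j => (y0 (vb (p (e i))) j : ℝ)) := by
    intro i k
    have h1 := hg ⟨vb (p (e i)), hcs _ (hp _)⟩
    have h2 := congrFun h1 k
    rw [hgexp] at h2
    exact h2
  have hMS1 : ∀ i j, (M' * S) i (Sum.inl j) = M' i (Sum.inl j) := by
    intro i j
    rw [Matrix.mul_apply, Fintype.sum_sum_type]
    have h1 : ∀ j', M' i (Sum.inl j') * S (Sum.inl j') (Sum.inl j) =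
        M' i (Sum.inl j') * (1 : Matrix (Fin (m + 1)) (Fin (m + 1)) ℝ) j' j := fun j' => rfl
    have h2 : ∀ l, M' i (Sum.inr l) * S (Sum.inr l) (Sum.inl j) = M' i (Sum.inr l) * 0 :=
      fun l => rfl
    simp only [h1, h2, mul_zero, Finset.sum_const_zero, add_zero, Matrix.one_apply, mul_ite,
      mul_one]
    rw [Finset.sum_ite_eq' Finset.univ j (fun j' => M' i (Sum.inl j')), if_pos (Finset.mem_univ _)]
  have hMS2 : ∀ i (k : Fin n), (M' * S) i (Sum.inr k) =
      ap (B k) (fun j => (vf (p (e i)) j : ℝ)) -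
        ap (B k) (fun j => (y0 (vb (p (e i))) j : ℝ)) := by
    intro i k
    rw [Matrix.mul_apply, Fintype.sum_sum_type]
    have h1 : ∀ j', M' i (Sum.inl j') * S (Sum.inl j') (Sum.inr k) =
        -(M' i (Sum.inl j') * G j' k) := by
      intro j'
      show M' i (Sum.inl j') * (-(G j' k)) = _
      ring
    have h2 : ∀ l, M' i (Sum.inr l) * S (Sum.inr l) (Sum.inr k) =
        (B k l : ℝ) * (vf (p (e i)) l : ℝ) := by
      intro l
      rw [e2]
      show (vf (p (e i)) l : ℝ) * (((B k l : ℤ) : ℝ)) = _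
      ring
    simp only [h1, h2, Finset.sum_neg_distrib, hrow]
    rw [ap, ap]
    ring
  -- factor out the base matrix
  let N : Matrix (Fin (m + 1) ⊕ Fin n) (Fin (m + 1) ⊕ Fin n) ℝ := Matrix.of fun i j =>
    Sum.elim (fun j' : Fin (m + 1) => if f' j' = vb (p (e i)) then (1:ℝ) else 0)
      (fun k => (M' * S) i (Sum.inr k)) j
  let TT : Matrix (Fin (m + 1) ⊕ Fin n) (Fin (m + 1) ⊕ Fin n) ℝ := Matrix.fromBlocks TR 0 0 1
  have hdetTT : TT.det = TR.det := by
    show (Matrix.fromBlocks TR 0 0 1).det = _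
    rw [Matrix.det_fromBlocks_zero₂₁, Matrix.det_one, mul_one]
  have hfac : M' * S = N * TT := by
    ext i j
    rw [Matrix.mul_apply (M := N), Fintype.sum_sum_type]
    rcases j with j | k
    · rw [hMS1, e1]
      have h1 : ∀ l, N i (Sum.inr l) * TT (Sum.inr l) (Sum.inl j) = N i (Sum.inr l) * 0 :=
        fun l => rfl
      have h2 : ∀ j', N i (Sum.inl j') * TT (Sum.inl j') (Sum.inl j) =
          (if f' j' = vb (p (e i)) then (1:ℝ) else 0) * (f' j' j : ℝ) := fun j' => rfl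
      simp only [h1, h2, mul_zero, Finset.sum_const_zero, add_zero]
      obtain ⟨j0, hj0⟩ : ∃ j0, f' j0 = vb (p (e i)) :=
        ⟨e'.symm ⟨vb (p (e i)), hcs _ (hp _)⟩, by
          show ((e' (e'.symm ⟨vb (p (e i)), hcs _ (hp _)⟩) : c') : Fin (m + 1) → ℤ) = _
          rw [Equiv.apply_symm_apply]⟩
      rw [Finset.sum_eq_single j0]
      · rw [if_pos hj0, one_mul, hj0]; rfl
      · intro j' _ hne
        rw [if_neg, zero_mul]
        intro h
        exact hne (hf'inj (h.trans hj0.symm))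
      · intro h; exact absurd (Finset.mem_univ _) h
    · have h1 : ∀ l, N i (Sum.inr l) * TT (Sum.inr l) (Sum.inr k) =
          N i (Sum.inr l) * (1 : Matrix (Fin n) (Fin n) ℝ) l k := fun l => rfl
      have h2 : ∀ j', N i (Sum.inl j') * TT (Sum.inl j') (Sum.inr k) =
          N i (Sum.inl j') * 0 := fun j' => rfl
      simp only [h1, h2, mul_zero, Finset.sum_const_zero, zero_add, Matrix.one_apply, mul_ite,
        mul_one]
      rw [Finset.sum_ite_eq' Finset.univ k (fun l => N i (Sum.inr l)), if_pos (Finset.mem_univ _)]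
      rfl
  set C : ℝ := 1 + 2 * n * ρ with hC
  have hpos2 : (0:ℝ) ≤ 2 * n * ρ := by positivity
  have hent : ∀ i j, AbsoluteValue.abs (N i j) ≤ C := by
    rintro i (j | k)
    · show |(if f' j = vb (p (e i)) then (1:ℝ) else 0)| ≤ C
      split_ifs
      · rw [abs_one, hC]; linarith
      · rw [abs_zero, hC]; linarith
    · show |(M' * S) i (Sum.inr k)| ≤ C
      rw [hMS2]
      obtain ⟨q', hq', hs', hy'⟩ := hy0 (p (e i)) (hp _)
      rw [hy']
      have h1 := fib_diff' h hc (hp (e i)) hq' hs'.symm k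
      refine h1.trans ?_
      rw [hC]; linarith
  have hdet := Matrix.det_le (A := N) (abv := AbsoluteValue.abs) (x := C) hent
  have hcardF : Fintype.card (Fin (m + 1) ⊕ Fin n) = m + n + 1 := by
    simp only [Fintype.card_sum, Fintype.card_fin]; omega
  rw [hcardF, nsmul_eq_mul] at hdet
  have hdet' : |N.det| ≤ ((m + n + 1).factorial : ℝ) * C ^ (m + n + 1) := hdet
  have h1 : MR.det * BR.det = N.det * TR.det := by
    have h2 := congrArg Matrix.det hfac
    rw [Matrix.det_mul, Matrix.det_mul, hdetS, hdetTT, hM'] at h2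
    exact h2
  have h2 : |MR.det| ≤ |N.det| * |TR.det| := by
    rw [← abs_mul, ← h1, abs_mul]
    exact le_mul_of_one_le_right (abs_nonneg _) hdetB
  have hCpos : (0:ℝ) ≤ ((m + n + 1).factorial : ℝ) * C ^ (m + n + 1) :=
    (abs_nonneg _).trans hdet'
  rw [hMR]
  refine h2.trans ((mul_le_mul hdet' hTR1 (abs_nonneg _) hCpos).trans (le_of_eq ?_))
  push_cast
  rw [hC]
  ring

end modc

end H79F
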