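import Pool.Agent.Work.MP_6237c7_co.FB.Mod2

set_option autoImplicit false
set_option linter.unusedSectionVars false

/-! MP_6237c7_co, FB: local measures on modular fibres. -/

namespace H79F

open Finsupp MeasureTheory H79KMW
open scoped Pointwise

/-- Base columns. -/
def A1 {m n r : ℕ} (A : Matrix (Fin r) (Fin (m + n)) ℤ) : Fin r → Fin m → ℤ :=
  fun j k => A j (Fin.castAdd n k)

/-- Fibre columns. -/
def A2 {m n r : ℕ} (A : Matrix (Fin r) (Fin (m + n)) ℤ) : Fin r → Fin n → ℤ :=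
  fun j k => A j (Fin.natAdd m k)

lemma ap_append {m n r : ℕ} (A : Matrix (Fin r) (Fin (m + n)) ℤ) (j : Fin r) (z : Fin m → ℝ)
    (c : Fin n → ℝ) : ap (A j) (Fin.append z c) = ap (A1 A j) z + ap (A2 A j) c := by
  rw [ap, Fin.sum_univ_add]
  simp only [Fin.append_left, Fin.append_right]
  rfl

lemma append_pr {m n : ℕ} (p : Fin (m + n) → ℝ) :
    Fin.append (pr p) (fun k => p (Fin.natAdd m k)) = p := by
  funext i
  refine Fin.addCases (fun k => ?_) (fun k => ?_) i
  · rw [Fin.append_left]; rfl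
  · rw [Fin.append_right]

section mod
variable {m n r : ℕ} {V0 : Finset (Fin (m + n) → ℝ)} {A : Matrix (Fin r) (Fin (m + n)) ℤ}
  {b : Fin r → ℤ}

lemma conv_bdd (V0 : Finset (Fin (m + n) → ℝ)) :
    Bornology.IsBounded (convexHull ℝ (V0 : Set (Fin (m + n) → ℝ))) :=
  (V0.finite_toSet.isCompact_convexHull ℝ).isBounded

lemma fib_inj (hAb : convexHull ℝ (V0 : Set (Fin (m + n) → ℝ)) = pol A b)
    (hne : V0.Nonempty) (x : Fin n → ℝ) (hx : ∀ j, ap (A2 A j) x = 0) : x = 0 := by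
  have h1 : Bornology.IsBounded (pol A b) := by rw [← hAb]; exact conv_bdd V0
  have h2 : (pol A b).Nonempty := by
    rw [← hAb]
    obtain ⟨y, hy⟩ := hne
    exact ⟨y, subset_convexHull ℝ _ hy⟩
  have h3 := pol_inj h1 h2 (Fin.append (0 : Fin m → ℝ) x) (fun j => by
    rw [ap_append, hx j, add_zero]
    simp [ap])
  funext k
  have h4 := congrFun h3 (Fin.natAdd m k)
  rw [Fin.append_right] at h4
  exact h4

/-- Local measures on modular fibres. -/
lemma mod_LM {Δ : ℕ} (X : Geometry.SimplicialComplex ℝ (Fin m → ℝ))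
    (hX : ∀ s ∈ X.faces, ∀ x ∈ s, ∀ i : Fin m, ∃ z : ℤ, x i = (z : ℝ))
    (hint : ∀ x ∈ V0, ∀ i, ∃ z : ℤ, x i = (z : ℝ))
    (hcay : ∀ s ∈ X.faces, ∀ p ∈ convexHull ℝ (V0 : Set (Fin (m + n) → ℝ)),
      pr p ∈ convexHull ℝ (s : Set (Fin m → ℝ)) →
      p ∈ convexHull ℝ {q | q ∈ convexHull ℝ (V0 : Set (Fin (m + n) → ℝ)) ∧
        (∀ i, ∃ z : ℤ, q i = (z : ℝ)) ∧ pr q ∈ s})
    (hAb : convexHull ℝ (V0 : Set (Fin (m + n) → ℝ)) = pol A b) (hne : V0.Nonempty)
    (hmin : ∀ f : Fin n → Fin r, |(Matrix.of (fun i => A2 A (f i))).det| ≤ (Δ : ℤ))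
    (f0 : Fin n → Fin r) :
    LM (fanOf X) (V0.image lft) (fun k => A2 A (f0 k)) (n * Δ) := by
  classical
  intro y hy u hu hyu
  -- the base point
  have hu' : ∃ x0 : Fin m → ℝ, ({x0} : Finset (Fin m → ℝ)) ∈ X.faces ∧ lft x0 = u := by
    rcases hu with h | ⟨t, ht, hs⟩
    · exact absurd h (Finset.singleton_ne_empty u)
    · rw [Finset.coe_singleton] at hs
      have hut : u ∈ lft '' (t : Set (Fin m → ℝ)) := by rw [← hs]; rfl
      obtain ⟨x0, hx0, hx0u⟩ := hut
      refine ⟨x0, ?_, hx0u⟩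
      have ht1 : t = {x0} := by
        apply Finset.Subset.antisymm
        · intro x hx
          have h1 : lft x ∈ ({u} : Set (Fin (m + 1) → ℤ)) := by
            rw [hs]; exact ⟨x, hx, rfl⟩
          have h2 : lft x = lft x0 := by rw [hx0u]; exact h1
          rw [Finset.mem_singleton, ← tl_lft (hX t ht x hx), ← tl_lft (hX t ht x0 hx0), h2]
        · intro x hx
          rw [Finset.mem_singleton.1 hx]; exact hx0
      rw [← ht1]; exact ht
  obtain ⟨x0, hx0, rfl⟩ := hu'
  have hx0i : ∀ i, ∃ z : ℤ, x0 i = (z : ℝ) := hX _ hx0 x0 (Finset.mem_singleton_self _)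
  have hyb : ∀ i, y (ge m n (Sum.inl i)) = (Fin.cons 1 x0 : Fin (m + 1) → ℝ) i := by
    intro i
    have h1 := congrFun hyu i
    rw [rv_lft hx0i] at h1
    exact h1
  have hsplit : ∀ c : Fin n → ℝ, Fin.append x0 c ∈ convexHull ℝ (V0 : Set (Fin (m + n) → ℝ)) ↔
      ∀ j, ap (A2 A j) c ≤ (b j : ℝ) - ap (A1 A j) x0 := by
    intro c
    rw [hAb]
    show (∀ j, ap (A j) (Fin.append x0 c) ≤ (b j : ℝ)) ↔ _
    refine forall_congr' fun j => ?_
    rw [ap_append]
    constructor <;> intro h <;> linarith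
  have hyc : y = (Fin.cons 1 (Fin.append x0 (fr y)) : Fin (m + n + 1) → ℝ) := by
    refine ext_bf ?_ ?_
    · funext i
      show y (ge m n (Sum.inl i)) = _
      rw [hyb]
      refine Fin.cases ?_ (fun k => ?_) i
      · rfl
      · show x0 k = Fin.append x0 (fr y) (Fin.castAdd n k)
        rw [Fin.append_left]
    · funext k
      show fr y k = Fin.append x0 (fr y) (Fin.natAdd m k)
      rw [Fin.append_right]
  have hcQ : ∀ j, ap (A2 A j) (fr y) ≤ (b j : ℝ) - ap (A1 A j) x0 := by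
    rw [← hsplit, ← cone_iff hint, ← hyc]
    exact hy
  have hbd : Bornology.IsBounded {x : Fin n → ℝ | ∀ j, ap (A2 A j) x ≤
      (b j : ℝ) - ap (A1 A j) x0} := by
    obtain ⟨R, hR⟩ := (conv_bdd V0).exists_norm_le
    rw [isBounded_iff_forall_norm_le]
    refine ⟨|R|, fun c hc => ?_⟩
    have h1 := (hR _ ((hsplit c).2 hc)).trans (le_abs_self R)
    rw [pi_norm_le_iff_of_nonneg (abs_nonneg R)]
    intro k
    have h2 := (norm_le_pi_norm (Fin.append x0 c) (Fin.natAdd m k)).trans h1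
    rw [Fin.append_right] at h2
    exact h2
  let fpr : (Fin (m + n) → ℝ) →ₗ[ℝ] (Fin n → ℝ) := LinearMap.funLeft ℝ ℝ (Fin.natAdd m)
  have hvert : {x : Fin n → ℝ | ∀ j, ap (A2 A j) x ≤ (b j : ℝ) - ap (A1 A j) x0} ⊆
      convexHull ℝ ({x : Fin n → ℝ | ∀ j, ap (A2 A j) x ≤ (b j : ℝ) - ap (A1 A j) x0} ∩
        Set.range (rv (n := n))) := by
    intro c hc
    have h1 := hcay _ hx0 _ ((hsplit c).2 hc) (by
      have h2 : pr (Fin.append x0 c) = x0 := by
        funext k
        show Fin.append x0 c (Fin.castAdd n k) = x0 k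
        rw [Fin.append_left]
      rw [h2, Finset.coe_singleton, convexHull_singleton]
      exact rfl)
    have h2 : fpr (Fin.append x0 c) = c := by
      funext k
      show Fin.append x0 c (Fin.natAdd m k) = c k
      rw [Fin.append_right]
    have h3 : fpr (Fin.append x0 c) ∈ fpr '' (convexHull ℝ {q |
        q ∈ convexHull ℝ (V0 : Set (Fin (m + n) → ℝ)) ∧
        (∀ i, ∃ z : ℤ, q i = (z : ℝ)) ∧ pr q ∈ ({x0} : Finset (Fin m → ℝ))}) := ⟨_, h1, rfl⟩
    rw [h2, fpr.image_convexHull] at h3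
    refine convexHull_mono ?_ h3
    rintro _ ⟨q, ⟨hq1, hq2, hq3⟩, rfl⟩
    have hq4 : pr q = x0 := Finset.mem_singleton.1 hq3
    have hq5 : Fin.append x0 (fpr q) = q := by
      rw [← hq4]; exact append_pr q
    refine ⟨?_, ?_⟩
    · show ∀ j, ap (A2 A j) (fpr q) ≤ (b j : ℝ) - ap (A1 A j) x0
      rw [← hsplit, hq5]; exact hq1
    · choose z hz using hq2
      refine ⟨fun k => z (Fin.natAdd m k), ?_⟩
      funext k
      exact (hz (Fin.natAdd m k)).symm
  have hprox := proximity hmin (fib_inj hAb hne) hbd hvert hcQ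
  obtain ⟨ν, h1, h2, h3, h4⟩ := hull_nu (fun x hx => hx.2.1) hprox
  -- transfer
  let up : (Fin n → ℤ) → (Fin (m + n + 1) → ℤ) := fun z => lft (Fin.append x0 (rv z))
  have happ : ∀ z : Fin n → ℤ, ∀ i, ∃ w : ℤ, Fin.append x0 (rv z) i = (w : ℝ) := by
    intro z i
    refine Fin.addCases (fun k => ?_) (fun k => ?_) i
    · rw [Fin.append_left]; exact hx0i k
    · rw [Fin.append_right]; exact ⟨z k, rfl⟩
  have hup1 : ∀ z, bs (m := m) (n := n) (up z) = lft x0 := by
    intro z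
    show bs (m := m) (n := n) (lft (Fin.append x0 (rv z))) = _
    rw [lft_pr]
    congr 1
    funext k
    show Fin.append x0 (rv z) (Fin.castAdd n k) = x0 k
    rw [Fin.append_left]
  have hup2 : ∀ z, fx (m := m) (n := n) (up z) = z := by
    intro z
    funext k
    show ⌊Fin.append x0 (rv z) (Fin.natAdd m k)⌋ = z k
    rw [Fin.append_right]
    show ⌊((z k : ℤ) : ℝ)⌋ = z k
    exact Int.floor_intCast _
  have hup3 : ∀ z ∈ ν.support, rv (up z) ∈ coneOf (V0.image lft) ∧
      ({bs (m := m) (n := n) (up z)} : Finset (Fin (m + 1) → ℤ)) ∈ fanOf X := by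
    intro z hz
    refine ⟨?_, ?_⟩
    · show rv (lft (Fin.append x0 (rv z))) ∈ _
      rw [rv_lft (happ z), cone_iff hint, hsplit]
      exact (h4 z hz).1
    · rw [hup1]; exact hu
  let mk : {z // z ∈ ν.support} → Vt (fanOf X) (V0.image lft) := fun z => ⟨up z.1, hup3 z.1 z.2⟩
  have hmk : Function.Injective mk := by
    intro z z' h
    have h5 : up z.1 = up z'.1 := congrArg Subtype.val h
    have h6 : z.1 = z'.1 := by rw [← hup2 z.1, ← hup2 z'.1, h5]
    exact Subtype.ext h6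
  let w : Vt (fanOf X) (V0.image lft) →₀ ℝ := ∑ z ∈ ν.support.attach, single (mk z) (ν z.1)
  have hwsub : ∀ p ∈ w.support, ∃ z : {z // z ∈ ν.support}, p = mk z := by
    intro p hp
    have h5 := (Finsupp.support_finsetSum (s := ν.support.attach)
      (f := fun z => single (mk z) (ν z.1))) hp
    rw [Finset.mem_biUnion] at h5
    obtain ⟨z, _, hz⟩ := h5
    exact ⟨z, Finset.mem_singleton.1 (Finsupp.support_single_subset hz)⟩
  have hwsum : ∀ F : Vt (fanOf X) (V0.image lft) → ℝ, ∑ p ∈ w.support, w p * F p =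
      ∑ z ∈ ν.support, ν z * (if hz : z ∈ ν.support then F (mk ⟨z, hz⟩) else 0) := by
    intro F
    have e1 : ∑ p ∈ w.support, w p * F p = Finsupp.linearCombination ℝ F w := by
      rw [Finsupp.linearCombination_apply, Finsupp.sum]; rfl
    have e2 : Finsupp.linearCombination ℝ F w =
        ∑ z ∈ ν.support.attach, ν z.1 * F (mk z) := by
      show Finsupp.linearCombination ℝ F (∑ z ∈ ν.support.attach, single (mk z) (ν z.1)) = _
      rw [map_sum]
      refine Finset.sum_congr rfl fun z _ => ?_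
      rw [Finsupp.linearCombination_single, smul_eq_mul]
    rw [e1, e2, ← Finset.sum_attach ν.support (fun z => ν z *
      (if hz : z ∈ ν.support then F (mk ⟨z, hz⟩) else 0))]
    refine Finset.sum_congr rfl fun z _ => ?_
    rw [dif_pos z.2]
  refine ⟨w, ?_, ?_, ?_, ?_, ?_⟩
  · intro p
    show 0 ≤ (∑ z ∈ ν.support.attach, single (mk z) (ν z.1)) p
    rw [Finsupp.finsetSum_apply]
    refine Finset.sum_nonneg fun z _ => ?_
    rw [Finsupp.single_apply]
    split_ifs
    · exact h1 _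
    · exact le_rfl
  · have e1 := hwsum (fun _ => 1)
    simp only [mul_one] at e1
    rw [e1]
    refine Eq.trans (Finset.sum_congr rfl fun z hz => ?_) h2
    rw [dif_pos hz, mul_one]
  · intro p hp
    obtain ⟨z, rfl⟩ := hwsub p hp
    exact hup1 z.1
  · intro k
    rw [hwsum (fun p => (vf p k : ℝ)), ← h3 k]
    refine Finset.sum_congr rfl fun z hz => ?_
    rw [dif_pos hz]
    have e1 : vf (mk ⟨z, hz⟩) k = z k := congrFun (hup2 z) k
    rw [e1]
  · intro p hp k
    obtain ⟨z, rfl⟩ := hwsub p hp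
    have e1 : (fun j => (vf (mk z) j : ℝ)) = rv z.1 := by
      funext j
      have e2 : vf (mk z) j = z.1 j := congrFun (hup2 z.1) j
      rw [e2]; rfl
    have h5 := (h4 z.1 z.2).2.2 (f0 k)
    rw [ap_sub'] at h5
    rw [e1]
    push_cast
    exact h5

end mod

end H79F
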