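import Pool.Agent.Work.MP_6237c7_co.FB.Core2
import Pool.Agent.Work.MP_6237c7_co.FB.Init2
import Pool.Agent.Work.MP_6237c7_co.BW.Final
import Pool.Agent.Work.MP_6237c7_co.LV.Fibre

set_option autoImplicit false

namespace H6BW

theorem core2S : S_CORE2 :=
  core2 starall finf repl localS (unb grp) tri (quad kerlat) detb (bdl grp)

end H6BW

namespace H79F

open Finsupp MeasureTheory H79KMW
open scoped Pointwise

/-- Base part of a vector. -/
def bs {m n : ℕ} (x : Fin (m + n + 1) → ℤ) : Fin (m + 1) → ℤ := fun i => x (ge m n (Sum.inl i))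

/-- Projection of points. -/
def pr {m n : ℕ} (x : Fin (m + n) → ℝ) : Fin m → ℝ := fun k => x (Fin.castAdd n k)

/-- The matrix of `bs`. -/
def prm (m n : ℕ) : Matrix (Fin (m + 1)) (Fin (m + n + 1)) ℤ :=
  Matrix.of fun i j => if j = ge m n (Sum.inl i) then 1 else 0

lemma prm_mulVec {m n : ℕ} (x : Fin (m + n + 1) → ℤ) : (prm m n).mulVec x = bs x := by
  funext i
  simp [prm, Matrix.mulVec, dotProduct, bs]

lemma prm_rank (m n : ℕ) : ((prm m n).map (Int.cast : ℤ → ℝ)).rank = m + 1 := by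
  have h1 : LinearIndependent ℝ ((prm m n).map (Int.cast : ℤ → ℝ)).row := by
    rw [Fintype.linearIndependent_iff]
    intro c hc i
    have h2 := congrFun hc (ge m n (Sum.inl i))
    rw [Finset.sum_apply] at h2
    rw [Finset.sum_eq_single i] at h2
    · simpa [prm, Matrix.row] using h2
    · intro j _ hji
      have h3 : ge m n (Sum.inl i) ≠ ge m n (Sum.inl j) := by
        intro h
        exact hji (Sum.inl_injective ((ge_bij m n).1 h)).symm
      simp [prm, Matrix.row, h3]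
    · intro h; exact absurd (Finset.mem_univ i) h
  rw [h1.rank_matrix, Fintype.card_fin]

lemma tl_image_lft {d : ℕ} {V0 : Finset (Fin d → ℝ)}
    (hint : ∀ x ∈ V0, ∀ i, ∃ z : ℤ, x i = (z : ℝ)) :
    tl '' ((V0.image lft : Finset (Fin (d + 1) → ℤ)) : Set (Fin (d + 1) → ℤ)) =
      (V0 : Set (Fin d → ℝ)) := by
  ext x
  constructor
  · rintro ⟨_, hv, rfl⟩
    obtain ⟨z, hz, rfl⟩ := Finset.mem_image.1 (Finset.mem_coe.1 hv)
    rw [tl_lft (hint z hz)]; exact hz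
  · intro hx
    exact ⟨lft x, Finset.mem_coe.2 (Finset.mem_image_of_mem _ hx), tl_lft (hint x hx)⟩

lemma lft_lv {d : ℕ} {V0 : Finset (Fin d → ℝ)} : ∀ v ∈ V0.image lft, v 0 = 1 := by
  intro v hv
  obtain ⟨x, _, rfl⟩ := Finset.mem_image.1 hv
  rfl

lemma rv_lft {d : ℕ} {x : Fin d → ℝ} (hx : ∀ i, ∃ z : ℤ, x i = (z : ℝ)) :
    rv (lft x) = (Fin.cons 1 x : Fin (d + 1) → ℝ) := by
  funext i
  refine Fin.cases ?_ (fun j => ?_) i
  · show (((1 : ℤ)) : ℝ) = 1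
    simp
  · exact congrFun (tl_lft hx) j

lemma cone_iff {d : ℕ} {V0 : Finset (Fin d → ℝ)}
    (hint : ∀ x ∈ V0, ∀ i, ∃ z : ℤ, x i = (z : ℝ)) (x : Fin d → ℝ) :
    (Fin.cons 1 x : Fin (d + 1) → ℝ) ∈ coneOf (V0.image lft) ↔
      x ∈ convexHull ℝ (V0 : Set (Fin d → ℝ)) := by
  rw [← tl_image_lft hint, hull_iff lft_lv]
  rfl

/-- Weights with a given support. -/
lemma exists_weight {β : Type*} (s : Finset β) : ∃ a : β →₀ ℝ, (∀ x, 0 ≤ a x) ∧ a.support = s := by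
  classical
  refine ⟨{ support := s, toFun := fun x => if x ∈ s then 1 else 0, mem_support_toFun := ?_ },
    fun x => ?_, rfl⟩
  · intro x
    by_cases h : x ∈ s <;> simp [h]
  · show (0:ℝ) ≤ if x ∈ s then 1 else 0
    split_ifs <;> norm_num

lemma lft_pr {m n : ℕ} (q : Fin (m + n) → ℝ) : bs (m := m) (n := n) (lft q) = lft (pr q) := by
  funext i
  refine Fin.cases ?_ (fun j => ?_) i
  · rfl
  · rfl

/-- The splitting property from the Cayley property. -/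
lemma split_of {m n : ℕ} (X : Geometry.SimplicialComplex ℝ (Fin m → ℝ))
    (V0 : Finset (Fin (m + n) → ℝ)) (hint : ∀ x ∈ V0, ∀ i, ∃ z : ℤ, x i = (z : ℝ))
    (hcov : ∀ p ∈ convexHull ℝ (V0 : Set (Fin (m + n) → ℝ)), pr p ∈ X.space)
    (hcay : ∀ s ∈ X.faces, ∀ p ∈ convexHull ℝ (V0 : Set (Fin (m + n) → ℝ)),
      pr p ∈ convexHull ℝ (s : Set (Fin m → ℝ)) →
      p ∈ convexHull ℝ {q | q ∈ convexHull ℝ (V0 : Set (Fin (m + n) → ℝ)) ∧
        (∀ i, ∃ z : ℤ, q i = (z : ℝ)) ∧ pr q ∈ s}) :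
    ∀ y ∈ coneOf (V0.image lft), ∃ a ∈ body (fanOf X), ∃ P : Finset (Fin (m + n + 1) → ℤ),
      (∀ x ∈ P, rv x ∈ coneOf (V0.image lft) ∧ bs x ∈ a.support) ∧ y ∈ coneOf P := by
  classical
  intro y hy
  by_cases hy0 : y = 0
  · refine ⟨0, ⟨fun _ => le_rfl, Or.inl (by simp)⟩, ∅, by simp, ?_⟩
    exact ⟨0, fun _ => le_rfl, by simp, by rw [map_zero, hy0]⟩
  have hT : 0 < y 0 := by
    obtain ⟨a, ha, has, rfl⟩ := hy
    have h1 : lc id a 0 = ∑ x ∈ a.support, a x := by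
      rw [lc_apply_of_subset a a.support (Finset.Subset.refl _)]
      refine Finset.sum_congr rfl fun x hx => ?_
      have : (id x : Fin (m + n + 1) → ℤ) 0 = 1 := lft_lv x (has hx)
      rw [this]; simp
    rw [h1]
    have hne : a.support.Nonempty := by
      rw [Finset.nonempty_iff_ne_empty, Ne, Finsupp.support_eq_empty]
      rintro rfl
      exact hy0 (by rw [map_zero])
    exact Finset.sum_pos (fun x hx => lt_of_le_of_ne (ha x) (Ne.symm (Finsupp.mem_support_iff.1 hx)))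
      hne
  set T : ℝ := y 0 with hTdef
  let p : Fin (m + n) → ℝ := fun j => T⁻¹ * y j.succ
  have hyp : y = T • (Fin.cons 1 p : Fin (m + n + 1) → ℝ) := by
    funext i
    refine Fin.cases ?_ (fun j => ?_) i
    · show y 0 = T * 1
      rw [mul_one]
    · show y j.succ = T * (T⁻¹ * y j.succ)
      rw [mul_inv_cancel_left₀ hT.ne']
  have hp : p ∈ convexHull ℝ (V0 : Set (Fin (m + n) → ℝ)) := by
    rw [← cone_iff hint]
    have h1 := coneOf_smul _ hy (c := T⁻¹) (by positivity)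
    rw [hyp, smul_smul, inv_mul_cancel₀ hT.ne', one_smul] at h1
    exact h1
  obtain ⟨s, hs, hps⟩ := (Geometry.SimplicialComplex.mem_space_iff).1 (hcov p hp)
  have h1 := hcay s hs p hp hps
  rw [convexHull_eq_union_convexHull_finite_subsets] at h1
  simp only [Set.mem_iUnion] at h1
  obtain ⟨t, ht, hpt⟩ := h1
  obtain ⟨a, ha, has⟩ := exists_weight (s.image lft)
  have htint : ∀ x ∈ t, ∀ i, ∃ z : ℤ, x i = (z : ℝ) := fun x hx => (ht hx).2.1
  refine ⟨a, ⟨ha, ?_⟩, t.image lft, ?_, ?_⟩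
  · rw [has]
    exact Or.inr ⟨s, hs, by rw [Finset.coe_image]⟩
  · intro x hx
    obtain ⟨q, hq, rfl⟩ := Finset.mem_image.1 hx
    refine ⟨?_, ?_⟩
    · rw [rv_lft (htint q hq), cone_iff hint]
      exact (ht hq).1
    · rw [has]
      show bs (m := m) (n := n) (lft q) ∈ s.image lft
      rw [lft_pr]
      exact Finset.mem_image_of_mem _ (ht hq).2.2
  · rw [hyp]
    refine coneOf_smul _ ?_ hT.le
    rw [cone_iff htint]
    exact hpt

/-- From bounded heights and multiplicities to unimodular complexes. -/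
lemma fan_end {d g' J J1 : ℕ} (hJ : RoundProp d J) {T : Set (Finset (Fin (g' + 1) → ℤ))}
    (hJ1 : 0 < J1) (hT : Base J1 T) {K : Set (Finset (Fin (d + 1) → ℤ))} (hK : IsCx id K)
    (hht : ∀ s ∈ K, ∀ x ∈ s, 1 ≤ x 0 ∧ x 0 ≤ ((g' + 1 : ℕ) : ℤ)) (v : ℕ)
    (hMB : MB K (v : ℝ)) :
    ∃ X : Geometry.SimplicialComplex ℝ (Fin d → ℝ), X.faces.Finite ∧
      X.space = ((J ^ (2 * (d + 1) * Nat.clog 2 v) * J1 : ℕ) : ℝ) • sec K ∧
      (∀ s ∈ X.faces, ∀ x ∈ s, ∀ i : Fin d, ∃ z : ℤ, x i = (z : ℝ)) ∧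
      (∀ s ∈ X.faces, s.card = d + 1 →
        volume (convexHull ℝ (s : Set (Fin d → ℝ))) = ((d.factorial : ENNReal))⁻¹) := by
  classical
  obtain ⟨K1, hK1, hlv1, hMB1, hsupp1⟩ := slice hJ1 hT hK hht (Nat.cast_nonneg v) hMB
  obtain ⟨X, hX1, hX2, hX3, hX4⟩ := main_fan hJ v hK1 hlv1 hMB1
  refine ⟨X, hX1, ?_, hX3, hX4⟩
  have hkR : (0:ℝ) < (J1 : ℝ) := by exact_mod_cast hJ1
  have hsec : sec K1 = (J1 : ℝ) • sec K := by
    ext x
    rw [Set.mem_smul_set_iff_inv_smul_mem₀ hkR.ne']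
    show (Fin.cons 1 x : Fin (d + 1) → ℝ) ∈ supp id K1 ↔
      (Fin.cons 1 ((J1 : ℝ)⁻¹ • x) : Fin (d + 1) → ℝ) ∈ supp id K
    rw [hsupp1]
    have hcons : (fun j : Fin (d + 1) => if j = 0 then (J1 : ℝ) * (Fin.cons 1 x : Fin (d + 1) → ℝ) 0
        else (Fin.cons 1 x : Fin (d + 1) → ℝ) j) =
        (J1 : ℝ) • (Fin.cons 1 ((J1 : ℝ)⁻¹ • x) : Fin (d + 1) → ℝ) := by
      funext j
      refine Fin.cases ?_ (fun i => ?_) j
      · simp
      · simp only [Fin.succ_ne_zero, if_false, Fin.cons_succ, Pi.smul_apply, smul_eq_mul]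
        rw [mul_inv_cancel_left₀ hkR.ne']
    constructor
    · intro h
      have h1 : (J1 : ℝ) • (Fin.cons 1 ((J1 : ℝ)⁻¹ • x) : Fin (d + 1) → ℝ) ∈ supp id K := by
        rw [← hcons]; exact h
      have h2 := supp_smul_mem hK h1 (c := (J1 : ℝ)⁻¹) (by positivity)
      rw [smul_smul, inv_mul_cancel₀ hkR.ne', one_smul] at h2
      exact h2
    · intro h
      have h2 := supp_smul_mem hK h hkR.le
      rw [← hcons] at h2
      exact h2
  rw [hX2, hsec, smul_smul]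
  push_cast
  rfl

/-- Fans of bounded heights and multiplicities on polygon fibrations. -/
lemma poly_fan {m : ℕ} (X : Geometry.SimplicialComplex ℝ (Fin m → ℝ)) (hfin : X.faces.Finite)
    (hX : ∀ s ∈ X.faces, ∀ x ∈ s, ∀ i : Fin m, ∃ z : ℤ, x i = (z : ℝ)) {v : ℕ}
    (hvol : ∀ s ∈ X.faces, s.card = m + 1 →
      volume (convexHull ℝ (s : Set (Fin m → ℝ))) ≤ (v : ENNReal) / (m.factorial : ENNReal))
    (V0 : Finset (Fin (m + 2) → ℝ)) (hint : ∀ x ∈ V0, ∀ i, ∃ z : ℤ, x i = (z : ℝ))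
    (hcov : ∀ p ∈ convexHull ℝ (V0 : Set (Fin (m + 2) → ℝ)), pr p ∈ X.space)
    (hcay : ∀ s ∈ X.faces, ∀ p ∈ convexHull ℝ (V0 : Set (Fin (m + 2) → ℝ)),
      pr p ∈ convexHull ℝ (s : Set (Fin m → ℝ)) →
      p ∈ convexHull ℝ {q | q ∈ convexHull ℝ (V0 : Set (Fin (m + 2) → ℝ)) ∧
        (∀ i, ∃ z : ℤ, q i = (z : ℝ)) ∧ pr q ∈ s}) :
    ∃ K' : Set (Finset (Fin (m + 3) → ℤ)), IsCx id K' ∧
      supp id K' = coneOf (V0.image lft) ∧
      (∀ s ∈ K', ∀ x ∈ s, 1 ≤ x 0 ∧ x 0 ≤ ((7 + 1 : ℕ) : ℤ)) ∧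
      MB K' ((((2 * v) ^ (m + 3) : ℕ)) : ℝ) := by
  classical
  have hΔ := fanOf_isCx hfin hX
  have hΔ1 : Lv (fanOf X) := fanOf_lv
  have hA0 : ∀ x : Fin (m + 3) → ℤ, ((prm m 2).mulVec x) 0 = x 0 := by
    intro x
    rw [prm_mulVec (m := m) (n := 2)]
    rfl
  obtain ⟨K, hK, hKs, hKo⟩ := H6BW.init2 H6BW.placel H6BW.finlp (m := m) (n := m + 2) hΔ
    (A := prm m 2) (V := V0.image lft) hA0 lft_lv (by
      intro y hy
      obtain ⟨a, ha, P, hP1, hP2⟩ := split_of (m := m) (n := 2) X V0 hint hcov hcay y hy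
      exact ⟨a, ha, P, fun x hx => ⟨(hP1 x hx).1, by
        rw [prm_mulVec (m := m) (n := 2)]; exact (hP1 x hx).2⟩, hP2⟩)
  have hMB := fanOf_MB hX hvol
  obtain ⟨K', hK', hs', hht', hMB'⟩ := H6BW.core2S m (fanOf X) hΔ v 1
    (fun s hs x hx => (hΔ1 s hs x hx).ge) (fun s hs x hx => by
      rw [hΔ1 s hs x hx]; simp) (fun s hs f hf => by
      have h1 := hMB s hs f hf
      have h2 : ((|dt f| : ℤ) : ℝ) ≤ ((v : ℤ) : ℝ) := by
        push_cast; exact h1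
      exact_mod_cast h2) (prm m 2) K (prm_rank m 2) hA0 hK hKo
  exact ⟨K', hK', hs'.trans hKs, hht', hMB'⟩

end H79F
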